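import Pool.Agent.helper14.NR.E8c.PN4

/-!
Generated: certificates.
-/

namespace Pool.Agent.helper14.NR.E8c

open Pool.Agent.helper31.IA (Z)
open Pool.Agent.helper31.IX (Op XOps runX Cov CovD cov_split covD_split)
open Pool.Agent.helper31.IC (TD)
open Pool.Agent.helper63.RG (reloc)
open Pool.Agent.helper63.NF hiding TD
open Pool.Agent.helper14.CF (xE covD_E)
open Pool.Agent.helper14.NR (share)

mutual
theorem A4_c0_t7 : CovD 1 gA4 [(97352417280, 5726797824), (584115552256, 34359738368), (1374389534720, 1374389534720)] :=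
  covD_E kA4_eq (.n 2 (.n 2 (.n 2 (.n 0 (.n 2 (.l 0) (.l 0)) (.n 2 (.l 0) (.l 0))) (.n 2 (.n 0 (.l 0) (.l 0)) (.l 0))) (.n 2 (.n 2 (.l 0) (.l 0)) (.n 0 (.l 0) (.l 0)))) (.n 2 (.n 2 (.l 0) (.l 0)) (.n 0 (.l 0) (.l 0))))
    [(97352417280, 5726797824), (584115552256, 34359738368), (1374389534720, 1374389534720)] rfl (by decide +kernel)
theorem A4_c0_t8 : CovD 1 gA4 [(97352417280, 5726797824), (652835028992, 34359738368), (1374389534720, 1374389534720)] :=
  covD_E kA4_eq (.n 2 (.n 2 (.n 2 (.n 2 (.l 0) (.l 0)) (.n 2 (.l 0) (.l 0))) (.n 2 (.n 0 (.l 0) (.l 0)) (.l 0))) (.n 2 (.n 2 (.l 0) (.l 0)) (.n 0 (.l 0) (.l 0))))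
    [(97352417280, 5726797824), (652835028992, 34359738368), (1374389534720, 1374389534720)] rfl (by decide +kernel)
end

mutual
theorem A4_c0_t9 : CovD 1 gA4 [(97352417280, 5726797824), (618475290624, 68719476736), (4123168604160, 1374389534720)] :=
  covD_E kA4_eq (.n 0 (.n 2 (.n 2 (.l 0) (.l 0)) (.n 2 (.l 0) (.n 0 (.n 2 (.l 0) (.n 0 (.n 1 (.l 1) (.l 0)) (.l 0))) (.l 0)))) (.n 2 (.n 2 (.l 0) (.l 0)) (.n 2 (.l 0) (.l 0))))
    [(97352417280, 5726797824), (618475290624, 68719476736), (4123168604160, 1374389534720)] rfl (by decide +kernel)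
theorem A4_c0_t10 : CovD 1 gA4 [(97352417280, 5726797824), (618475290624, 68719476736), (8246337208320, 2748779069440)] :=
  covD_E kA4_eq (.n 2 (.n 0 (.n 2 (.n 2 (.n 0 (.l 1) (.n 2 (.l 0) (.l 1))) (.l 1)) (.l 1)) (.n 2 (.n 0 (.n 2 (.l 0) (.l 1)) (.n 2 (.l 0) (.l 0))) (.l 1))) (.l 1))
    [(97352417280, 5726797824), (618475290624, 68719476736), (8246337208320, 2748779069440)] rfl (by decide +kernel)
end

mutual
theorem A4_c0_t13 : CovD 1 gA4 [(97352417280, 5726797824), (755914244096, 68719476736), (1374389534720, 1374389534720)] :=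
  covD_E kA4_eq (.n 2 (.n 1 (.n 2 (.n 0 (.n 2 (.l 0) (.l 0)) (.n 2 (.l 0) (.l 0))) (.n 2 (.l 0) (.l 0))) (.n 2 (.n 2 (.l 0) (.l 0)) (.n 2 (.l 0) (.l 0)))) (.n 2 (.n 2 (.n 0 (.l 0) (.l 0)) (.l 0)) (.n 0 (.l 0) (.l 0))))
    [(97352417280, 5726797824), (755914244096, 68719476736), (1374389534720, 1374389534720)] rfl (by decide +kernel)
theorem A4_c0_t14 : CovD 1 gA4 [(97352417280, 5726797824), (755914244096, 68719476736), (4123168604160, 1374389534720)] :=
  covD_E kA4_eq (.n 2 (.n 0 (.n 2 (.l 0) (.l 0)) (.n 2 (.l 0) (.l 0))) (.n 2 (.l 0) (.n 0 (.l 0) (.l 0))))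
    [(97352417280, 5726797824), (755914244096, 68719476736), (4123168604160, 1374389534720)] rfl (by decide +kernel)
end

mutual
theorem A4_c0_t15 : CovD 1 gA4 [(97352417280, 5726797824), (755914244096, 68719476736), (8246337208320, 2748779069440)] :=
  covD_E kA4_eq (.n 0 (.n 2 (.n 2 (.n 2 (.n 0 (.n 2 (.l 0) (.l 0)) (.l 0)) (.l 1)) (.l 1)) (.l 1)) (.n 2 (.n 2 (.n 2 (.l 0) (.l 0)) (.n 0 (.l 1) (.l 0))) (.l 1)))
    [(97352417280, 5726797824), (755914244096, 68719476736), (8246337208320, 2748779069440)] rfl (by decide +kernel)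
theorem A4_c0_t19 : CovD 1 gA4 [(108806012928, 5726797824), (584115552256, 34359738368), (2748779069440, 2748779069440)] :=
  covD_E kA4_eq (.n 2 (.n 2 (.n 2 (.n 2 (.n 2 (.l 0) (.l 0)) (.n 2 (.l 0) (.l 0))) (.n 2 (.n 2 (.l 0) (.l 0)) (.l 0))) (.n 2 (.n 2 (.l 0) (.l 0)) (.n 0 (.l 0) (.l 0)))) (.n 2 (.n 2 (.l 0) (.l 0)) (.n 0 (.l 0) (.l 0))))
    [(108806012928, 5726797824), (584115552256, 34359738368), (2748779069440, 2748779069440)] rfl (by decide +kernel)
end

mutual
theorem A4_c0_t20 : CovD 1 gA4 [(108806012928, 5726797824), (652835028992, 34359738368), (2748779069440, 2748779069440)] :=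
  covD_E kA4_eq (.n 2 (.n 2 (.n 2 (.n 2 (.n 2 (.l 0) (.l 0)) (.n 2 (.l 0) (.l 0))) (.n 2 (.n 0 (.l 0) (.l 0)) (.l 0))) (.n 2 (.n 2 (.l 0) (.l 0)) (.l 0))) (.n 2 (.n 2 (.l 0) (.l 0)) (.l 0)))
    [(108806012928, 5726797824), (652835028992, 34359738368), (2748779069440, 2748779069440)] rfl (by decide +kernel)
theorem A4_c0_t21 : CovD 1 gA4 [(108806012928, 5726797824), (618475290624, 68719476736), (8246337208320, 2748779069440)] :=
  covD_E kA4_eq (.n 2 (.n 2 (.n 2 (.l 0) (.l 0)) (.n 0 (.n 0 (.l 1) (.l 0)) (.l 0))) (.n 2 (.n 0 (.l 1) (.l 0)) (.l 1)))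
    [(108806012928, 5726797824), (618475290624, 68719476736), (8246337208320, 2748779069440)] rfl (by decide +kernel)
end

mutual
theorem A4_c0_t24 : CovD 1 gA4 [(108806012928, 5726797824), (755914244096, 68719476736), (1374389534720, 1374389534720)] :=
  covD_E kA4_eq (.n 2 (.n 2 (.n 2 (.n 2 (.l 0) (.l 0)) (.n 2 (.l 0) (.l 0))) (.n 0 (.n 2 (.l 0) (.l 0)) (.n 2 (.l 0) (.l 0)))) (.n 2 (.n 2 (.n 0 (.l 0) (.l 0)) (.l 0)) (.n 0 (.l 0) (.l 0))))
    [(108806012928, 5726797824), (755914244096, 68719476736), (1374389534720, 1374389534720)] rfl (by decide +kernel)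
theorem A4_c0_t25 : CovD 1 gA4 [(108806012928, 5726797824), (755914244096, 68719476736), (4123168604160, 1374389534720)] :=
  covD_E kA4_eq (.n 0 (.n 2 (.n 2 (.l 0) (.l 0)) (.l 0)) (.n 2 (.n 2 (.l 0) (.l 0)) (.l 0)))
    [(108806012928, 5726797824), (755914244096, 68719476736), (4123168604160, 1374389534720)] rfl (by decide +kernel)
end

mutual
theorem A4_c0_t26 : CovD 1 gA4 [(108806012928, 5726797824), (755914244096, 68719476736), (8246337208320, 2748779069440)] :=
  covD_E kA4_eq (.n 2 (.n 0 (.n 2 (.l 0) (.l 0)) (.n 2 (.l 0) (.l 0))) (.n 2 (.l 0) (.l 0)))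
    [(108806012928, 5726797824), (755914244096, 68719476736), (8246337208320, 2748779069440)] rfl (by decide +kernel)
theorem A4_c0_t31 : CovD 1 gA4 [(120259608576, 5726797824), (584115552256, 34359738368), (2748779069440, 2748779069440)] :=
  covD_E kA4_eq (.n 2 (.n 2 (.n 2 (.n 2 (.n 2 (.l 0) (.l 0)) (.n 2 (.l 0) (.l 0))) (.n 2 (.n 0 (.l 0) (.l 0)) (.l 0))) (.n 2 (.n 2 (.l 0) (.l 0)) (.l 0))) (.n 2 (.n 2 (.l 0) (.l 0)) (.n 0 (.l 0) (.l 0))))
    [(120259608576, 5726797824), (584115552256, 34359738368), (2748779069440, 2748779069440)] rfl (by decide +kernel)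
end

mutual
theorem A4_c0_t32 : CovD 1 gA4 [(120259608576, 5726797824), (584115552256, 34359738368), (8246337208320, 2748779069440)] :=
  covD_E kA4_eq (.n 2 (.n 2 (.l 0) (.l 0)) (.n 0 (.l 0) (.l 0)))
    [(120259608576, 5726797824), (584115552256, 34359738368), (8246337208320, 2748779069440)] rfl (by decide +kernel)
theorem A4_c0_t33 : CovD 1 gA4 [(120259608576, 5726797824), (652835028992, 34359738368), (5497558138880, 5497558138880)] :=
  covD_E kA4_eq (.n 2 (.n 2 (.n 2 (.n 2 (.n 2 (.n 2 (.l 0) (.l 0)) (.n 2 (.l 0) (.l 0))) (.n 2 (.l 0) (.l 0))) (.n 2 (.n 0 (.l 0) (.l 0)) (.l 0))) (.n 2 (.n 2 (.l 0) (.l 0)) (.l 0))) (.n 2 (.n 2 (.l 0) (.l 0)) (.n 0 (.l 0) (.l 0))))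
    [(120259608576, 5726797824), (652835028992, 34359738368), (5497558138880, 5497558138880)] rfl (by decide +kernel)
end

mutual
theorem A4_c0_t36 : CovD 1 gA4 [(120259608576, 5726797824), (755914244096, 68719476736), (1374389534720, 1374389534720)] :=
  covD_E kA4_eq (.n 2 (.n 2 (.n 2 (.n 2 (.l 0) (.l 0)) (.n 1 (.l 0) (.l 0))) (.n 0 (.n 2 (.l 0) (.l 0)) (.n 2 (.l 0) (.l 0)))) (.n 2 (.n 2 (.l 0) (.l 0)) (.n 0 (.l 0) (.l 0))))
    [(120259608576, 5726797824), (755914244096, 68719476736), (1374389534720, 1374389534720)] rfl (by decide +kernel)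
theorem A4_c0_t37 : CovD 1 gA4 [(120259608576, 5726797824), (755914244096, 68719476736), (4123168604160, 1374389534720)] :=
  covD_E kA4_eq (.n 2 (.n 2 (.n 0 (.l 0) (.l 0)) (.l 0)) (.n 0 (.l 0) (.l 0)))
    [(120259608576, 5726797824), (755914244096, 68719476736), (4123168604160, 1374389534720)] rfl (by decide +kernel)
end

mutual
theorem A4_c0_t38 : CovD 1 gA4 [(120259608576, 5726797824), (755914244096, 68719476736), (8246337208320, 2748779069440)] :=
  covD_E kA4_eq (.n 2 (.n 0 (.n 2 (.l 0) (.l 0)) (.n 2 (.l 0) (.l 0))) (.n 2 (.l 0) (.l 0)))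
    [(120259608576, 5726797824), (755914244096, 68719476736), (8246337208320, 2748779069440)] rfl (by decide +kernel)
theorem A4_c0_t42 : CovD 1 gA4 [(131713204224, 5726797824), (584115552256, 34359738368), (2748779069440, 2748779069440)] :=
  covD_E kA4_eq (.n 2 (.n 2 (.n 2 (.n 2 (.n 2 (.l 0) (.l 0)) (.n 2 (.l 0) (.l 0))) (.n 2 (.n 0 (.l 0) (.l 0)) (.l 0))) (.n 2 (.n 2 (.l 0) (.l 0)) (.l 0))) (.n 2 (.n 2 (.l 0) (.l 0)) (.n 0 (.l 0) (.l 0))))
    [(131713204224, 5726797824), (584115552256, 34359738368), (2748779069440, 2748779069440)] rfl (by decide +kernel)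
end

mutual
theorem A4_c0_t43 : CovD 1 gA4 [(131713204224, 5726797824), (584115552256, 34359738368), (8246337208320, 2748779069440)] :=
  covD_E kA4_eq (.n 2 (.n 2 (.l 0) (.l 0)) (.n 0 (.l 0) (.l 0)))
    [(131713204224, 5726797824), (584115552256, 34359738368), (8246337208320, 2748779069440)] rfl (by decide +kernel)
theorem A4_c0_t44 : CovD 1 gA4 [(131713204224, 5726797824), (652835028992, 34359738368), (5497558138880, 5497558138880)] :=
  covD_E kA4_eq (.n 2 (.n 2 (.n 2 (.n 2 (.n 2 (.n 2 (.l 0) (.l 0)) (.n 0 (.l 0) (.l 0))) (.n 2 (.l 0) (.l 0))) (.n 2 (.n 0 (.l 0) (.l 0)) (.l 0))) (.n 2 (.n 2 (.l 0) (.l 0)) (.l 0))) (.n 2 (.n 2 (.l 0) (.l 0)) (.n 0 (.l 0) (.l 0))))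
    [(131713204224, 5726797824), (652835028992, 34359738368), (5497558138880, 5497558138880)] rfl (by decide +kernel)
end

mutual
theorem A4_c0_t47 : CovD 1 gA4 [(131713204224, 5726797824), (755914244096, 68719476736), (1374389534720, 1374389534720)] :=
  covD_E kA4_eq (.n 2 (.n 1 (.n 2 (.n 2 (.l 0) (.l 0)) (.n 2 (.l 0) (.l 0))) (.n 2 (.n 2 (.l 0) (.l 0)) (.n 2 (.l 0) (.l 0)))) (.n 2 (.n 2 (.l 0) (.l 0)) (.n 0 (.l 0) (.l 0))))
    [(131713204224, 5726797824), (755914244096, 68719476736), (1374389534720, 1374389534720)] rfl (by decide +kernel)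
theorem A4_c0_t48 : CovD 1 gA4 [(131713204224, 5726797824), (755914244096, 68719476736), (4123168604160, 1374389534720)] :=
  covD_E kA4_eq (.n 2 (.n 2 (.n 0 (.l 0) (.l 0)) (.l 0)) (.n 0 (.l 0) (.l 0)))
    [(131713204224, 5726797824), (755914244096, 68719476736), (4123168604160, 1374389534720)] rfl (by decide +kernel)
end

mutual
theorem A4_c0_t49 : CovD 1 gA4 [(131713204224, 5726797824), (755914244096, 68719476736), (8246337208320, 2748779069440)] :=
  covD_E kA4_eq (.n 1 (.n 2 (.n 2 (.l 0) (.l 0)) (.l 0)) (.n 2 (.n 2 (.l 0) (.l 0)) (.l 0)))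
    [(131713204224, 5726797824), (755914244096, 68719476736), (8246337208320, 2748779069440)] rfl (by decide +kernel)
theorem A4_c0_t55 : CovD 1 gA4 [(97352417280, 5726797824), (893353197568, 68719476736), (1374389534720, 1374389534720)] :=
  covD_E kA4_eq (.n 2 (.n 2 (.n 0 (.n 2 (.l 0) (.l 0)) (.n 2 (.l 0) (.l 0))) (.n 2 (.n 0 (.l 0) (.l 0)) (.l 0))) (.n 2 (.n 2 (.l 0) (.l 0)) (.n 0 (.l 0) (.l 0))))
    [(97352417280, 5726797824), (893353197568, 68719476736), (1374389534720, 1374389534720)] rfl (by decide +kernel)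
end

mutual
theorem A4_c0_t56 : CovD 1 gA4 [(97352417280, 5726797824), (893353197568, 68719476736), (4123168604160, 1374389534720)] :=
  covD_E kA4_eq (.n 2 (.n 0 (.n 2 (.l 0) (.l 0)) (.n 2 (.l 0) (.l 0))) (.n 2 (.l 0) (.l 0)))
    [(97352417280, 5726797824), (893353197568, 68719476736), (4123168604160, 1374389534720)] rfl (by decide +kernel)
theorem A4_c0_t57 : CovD 1 gA4 [(97352417280, 5726797824), (893353197568, 68719476736), (8246337208320, 2748779069440)] :=
  covD_E kA4_eq (.n 2 (.n 0 (.n 2 (.n 2 (.l 0) (.l 0)) (.n 0 (.l 1) (.l 1))) (.n 2 (.l 0) (.l 0))) (.n 2 (.l 1) (.l 1)))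
    [(97352417280, 5726797824), (893353197568, 68719476736), (8246337208320, 2748779069440)] rfl (by decide +kernel)
end

mutual
theorem A4_c0_t59 : CovD 1 gA4 [(97352417280, 5726797824), (1030792151040, 68719476736), (2748779069440, 2748779069440)] :=
  covD_E kA4_eq (.n 2 (.n 2 (.n 2 (.n 2 (.l 0) (.l 0)) (.n 2 (.l 0) (.l 0))) (.n 1 (.n 2 (.l 0) (.l 0)) (.n 2 (.l 0) (.l 0)))) (.n 2 (.n 2 (.n 0 (.l 0) (.l 0)) (.l 0)) (.n 2 (.l 0) (.l 0))))
    [(97352417280, 5726797824), (1030792151040, 68719476736), (2748779069440, 2748779069440)] rfl (by decide +kernel)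
theorem A4_c0_t60 : CovD 1 gA4 [(97352417280, 5726797824), (1030792151040, 68719476736), (8246337208320, 2748779069440)] :=
  covD_E kA4_eq (.n 2 (.n 0 (.n 2 (.l 0) (.l 0)) (.n 2 (.l 0) (.l 0))) (.n 2 (.n 0 (.l 1) (.l 0)) (.l 1)))
    [(97352417280, 5726797824), (1030792151040, 68719476736), (8246337208320, 2748779069440)] rfl (by decide +kernel)
end

mutual
theorem A4_c0_t63 : CovD 1 gA4 [(108806012928, 5726797824), (893353197568, 68719476736), (2748779069440, 2748779069440)] :=
  covD_E kA4_eq (.n 2 (.n 2 (.n 2 (.n 0 (.n 2 (.l 0) (.l 0)) (.n 2 (.l 0) (.l 0))) (.n 2 (.n 0 (.l 0) (.l 0)) (.l 0))) (.n 2 (.n 2 (.l 0) (.l 0)) (.n 0 (.l 0) (.l 0)))) (.n 2 (.n 2 (.n 0 (.l 0) (.l 0)) (.l 0)) (.n 0 (.l 0) (.l 0))))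
    [(108806012928, 5726797824), (893353197568, 68719476736), (2748779069440, 2748779069440)] rfl (by decide +kernel)
theorem A4_c0_t64 : CovD 1 gA4 [(108806012928, 5726797824), (893353197568, 68719476736), (8246337208320, 2748779069440)] :=
  covD_E kA4_eq (.n 2 (.n 2 (.n 0 (.l 0) (.l 0)) (.l 0)) (.n 0 (.l 0) (.l 0)))
    [(108806012928, 5726797824), (893353197568, 68719476736), (8246337208320, 2748779069440)] rfl (by decide +kernel)
end

mutual
theorem A4_c0_t66 : CovD 1 gA4 [(108806012928, 5726797824), (1030792151040, 68719476736), (2748779069440, 2748779069440)] :=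
  covD_E kA4_eq (.n 2 (.n 2 (.n 2 (.n 2 (.l 0) (.l 0)) (.n 2 (.l 0) (.l 0))) (.n 1 (.n 2 (.l 0) (.l 0)) (.n 2 (.l 0) (.l 0)))) (.n 2 (.n 2 (.n 0 (.l 0) (.l 0)) (.l 0)) (.n 0 (.l 0) (.l 0))))
    [(108806012928, 5726797824), (1030792151040, 68719476736), (2748779069440, 2748779069440)] rfl (by decide +kernel)
theorem A4_c0_t67 : CovD 1 gA4 [(108806012928, 5726797824), (1030792151040, 68719476736), (8246337208320, 2748779069440)] :=
  covD_E kA4_eq (.n 2 (.n 0 (.n 2 (.l 0) (.l 0)) (.n 2 (.l 0) (.l 0))) (.n 2 (.l 0) (.l 0)))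
    [(108806012928, 5726797824), (1030792151040, 68719476736), (8246337208320, 2748779069440)] rfl (by decide +kernel)
end

mutual
theorem A4_c0_t71 : CovD 1 gA4 [(120259608576, 5726797824), (893353197568, 68719476736), (2748779069440, 2748779069440)] :=
  covD_E kA4_eq (.n 2 (.n 2 (.n 2 (.n 0 (.n 2 (.l 0) (.l 0)) (.n 2 (.l 0) (.l 0))) (.n 2 (.l 0) (.l 0))) (.n 2 (.n 2 (.l 0) (.l 0)) (.n 0 (.l 0) (.l 0)))) (.n 2 (.n 2 (.n 0 (.l 0) (.l 0)) (.l 0)) (.n 0 (.l 0) (.l 0))))
    [(120259608576, 5726797824), (893353197568, 68719476736), (2748779069440, 2748779069440)] rfl (by decide +kernel)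
theorem A4_c0_t72 : CovD 1 gA4 [(120259608576, 5726797824), (893353197568, 68719476736), (8246337208320, 2748779069440)] :=
  covD_E kA4_eq (.n 2 (.n 2 (.n 0 (.l 0) (.l 0)) (.l 0)) (.n 1 (.l 0) (.l 0)))
    [(120259608576, 5726797824), (893353197568, 68719476736), (8246337208320, 2748779069440)] rfl (by decide +kernel)
end

mutual
theorem A4_c0_t74 : CovD 1 gA4 [(120259608576, 5726797824), (1030792151040, 68719476736), (2748779069440, 2748779069440)] :=
  covD_E kA4_eq (.n 2 (.n 2 (.n 2 (.n 2 (.l 0) (.l 0)) (.n 2 (.l 0) (.l 0))) (.n 0 (.n 2 (.l 0) (.l 0)) (.n 2 (.l 0) (.l 0)))) (.n 2 (.n 2 (.n 0 (.l 0) (.l 0)) (.l 0)) (.n 0 (.l 0) (.l 0))))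
    [(120259608576, 5726797824), (1030792151040, 68719476736), (2748779069440, 2748779069440)] rfl (by decide +kernel)
theorem A4_c0_t75 : CovD 1 gA4 [(120259608576, 5726797824), (1030792151040, 68719476736), (8246337208320, 2748779069440)] :=
  covD_E kA4_eq (.n 2 (.n 0 (.n 2 (.l 0) (.l 0)) (.n 2 (.l 0) (.l 0))) (.n 2 (.l 0) (.l 0)))
    [(120259608576, 5726797824), (1030792151040, 68719476736), (8246337208320, 2748779069440)] rfl (by decide +kernel)
end

mutual
theorem A4_c0_t78 : CovD 1 gA4 [(131713204224, 5726797824), (893353197568, 68719476736), (2748779069440, 2748779069440)] :=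
  covD_E kA4_eq (.n 2 (.n 2 (.n 2 (.n 2 (.l 0) (.n 0 (.l 0) (.l 0))) (.n 2 (.l 0) (.l 0))) (.n 1 (.n 2 (.l 0) (.l 0)) (.n 2 (.l 0) (.l 0)))) (.n 2 (.n 2 (.n 0 (.l 0) (.l 0)) (.l 0)) (.n 0 (.l 0) (.l 0))))
    [(131713204224, 5726797824), (893353197568, 68719476736), (2748779069440, 2748779069440)] rfl (by decide +kernel)
theorem A4_c0_t79 : CovD 1 gA4 [(131713204224, 5726797824), (893353197568, 68719476736), (8246337208320, 2748779069440)] :=
  covD_E kA4_eq (.n 2 (.n 2 (.n 0 (.l 0) (.l 0)) (.l 0)) (.n 1 (.l 0) (.l 0)))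
    [(131713204224, 5726797824), (893353197568, 68719476736), (8246337208320, 2748779069440)] rfl (by decide +kernel)
end

mutual
theorem A4_c0_t81 : CovD 1 gA4 [(131713204224, 5726797824), (1030792151040, 68719476736), (2748779069440, 2748779069440)] :=
  covD_E kA4_eq (.n 2 (.n 2 (.n 2 (.n 2 (.l 0) (.l 0)) (.n 1 (.l 0) (.l 0))) (.n 0 (.n 2 (.l 0) (.l 0)) (.n 2 (.l 0) (.l 0)))) (.n 2 (.n 2 (.n 0 (.l 0) (.l 0)) (.l 0)) (.n 0 (.l 0) (.l 0))))
    [(131713204224, 5726797824), (1030792151040, 68719476736), (2748779069440, 2748779069440)] rfl (by decide +kernel)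
theorem A4_c0_t82 : CovD 1 gA4 [(131713204224, 5726797824), (1030792151040, 68719476736), (8246337208320, 2748779069440)] :=
  covD_E kA4_eq (.n 2 (.n 0 (.n 2 (.l 0) (.l 0)) (.n 2 (.l 0) (.l 0))) (.n 2 (.l 0) (.l 0)))
    [(131713204224, 5726797824), (1030792151040, 68719476736), (8246337208320, 2748779069440)] rfl (by decide +kernel)
end

mutual
theorem B4_c0_t2 : CovD 1 gB4 [(103079215104, 11453595648), (687194767360, 137438953472), (54975791104, 54975791104)] :=
  covD_E kB4_eq (.n 1 (.n 2 (.n 2 (.l 1) (.l 1)) (.n 0 (.l 1) (.n 2 (.l 1) (.l 1)))) (.n 0 (.n 2 (.l 1) (.n 0 (.l 1) (.l 1))) (.n 2 (.n 2 (.l 1) (.l 1)) (.n 2 (.l 1) (.n 0 (.l 1) (.l 0))))))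
    [(103079215104, 11453595648), (687194767360, 137438953472), (54975791104, 54975791104)] rfl (by decide +kernel)
theorem B4_c0_t3 : CovD 1 gB4 [(103079215104, 11453595648), (962072674304, 137438953472), (54975791104, 54975791104)] :=
  covD_E kB4_eq (.n 0 (.n 2 (.n 2 (.l 1) (.l 1)) (.n 0 (.n 2 (.l 1) (.l 1)) (.n 2 (.l 1) (.l 1)))) (.n 1 (.n 2 (.n 2 (.l 0) (.l 0)) (.n 2 (.l 0) (.l 0))) (.n 0 (.n 2 (.l 0) (.l 0)) (.n 2 (.l 0) (.l 0)))))
    [(103079215104, 11453595648), (962072674304, 137438953472), (54975791104, 54975791104)] rfl (by decide +kernel)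
end

mutual
theorem B4_c0_t5 : CovD 1 gB4 [(120259608576, 5726797824), (824633720832, 274877906944), (54975791104, 54975791104)] :=
  covD_E kB4_eq (.n 1 (.n 1 (.n 2 (.n 2 (.l 0) (.l 0)) (.n 0 (.l 0) (.l 0))) (.n 2 (.l 0) (.n 0 (.l 0) (.l 0)))) (.n 1 (.n 2 (.l 0) (.n 0 (.l 0) (.l 0))) (.n 0 (.n 2 (.l 0) (.l 0)) (.n 2 (.l 0) (.l 0)))))
    [(120259608576, 5726797824), (824633720832, 274877906944), (54975791104, 54975791104)] rfl (by decide +kernel)
theorem B4_c0_t6 : CovD 1 gB4 [(131713204224, 5726797824), (824633720832, 274877906944), (54975791104, 54975791104)] :=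
  covD_E kB4_eq (.n 1 (.n 1 (.n 0 (.n 2 (.l 0) (.l 0)) (.n 2 (.l 0) (.l 0))) (.n 2 (.l 0) (.l 0))) (.n 1 (.n 2 (.l 0) (.l 0)) (.n 0 (.n 2 (.l 0) (.l 0)) (.n 2 (.l 0) (.l 0)))))
    [(131713204224, 5726797824), (824633720832, 274877906944), (54975791104, 54975791104)] rfl (by decide +kernel)
end

mutual
theorem D4_c0_t2 : CovD 1 gD4 [(103079215104, 11453595648), (687194767360, 137438953472), (863554764800, 863554764800)] :=
  covD_E kD4_eq (.n 2 (.n 2 (.n 2 (.l 0) (.l 0)) (.n 0 (.n 1 (.l 0) (.l 0)) (.n 1 (.l 0) (.l 0)))) (.n 1 (.n 2 (.n 0 (.l 0) (.l 0)) (.n 2 (.l 0) (.l 0))) (.n 2 (.n 0 (.l 0) (.l 0)) (.n 2 (.l 0) (.l 0)))))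
    [(103079215104, 11453595648), (687194767360, 137438953472), (863554764800, 863554764800)] rfl (by decide +kernel)
theorem D4_c0_t4 : CovD 1 gD4 [(103079215104, 11453595648), (893353197568, 68719476736), (863554764800, 863554764800)] :=
  covD_E kD4_eq (.n 2 (.n 0 (.n 2 (.l 0) (.l 0)) (.n 2 (.l 0) (.l 0))) (.n 2 (.n 0 (.l 0) (.l 0)) (.n 2 (.l 0) (.n 0 (.l 0) (.l 0)))))
    [(103079215104, 11453595648), (893353197568, 68719476736), (863554764800, 863554764800)] rfl (by decide +kernel)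
end

mutual
theorem D4_c0_t5 : CovD 1 gD4 [(103079215104, 11453595648), (1030792151040, 68719476736), (863554764800, 863554764800)] :=
  covD_E kD4_eq (.n 2 (.n 0 (.n 2 (.l 0) (.l 0)) (.n 2 (.l 0) (.l 0))) (.n 2 (.n 2 (.l 0) (.l 0)) (.n 2 (.l 0) (.n 0 (.l 0) (.l 0)))))
    [(103079215104, 11453595648), (1030792151040, 68719476736), (863554764800, 863554764800)] rfl (by decide +kernel)
theorem D4_c0_t8 : CovD 1 gD4 [(125986406400, 11453595648), (687194767360, 137438953472), (431777382400, 431777382400)] :=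
  covD_E kD4_eq (.n 2 (.n 2 (.l 0) (.n 0 (.l 0) (.l 0))) (.n 0 (.n 1 (.l 0) (.l 0)) (.n 2 (.l 0) (.l 0))))
    [(125986406400, 11453595648), (687194767360, 137438953472), (431777382400, 431777382400)] rfl (by decide +kernel)
end

mutual
theorem D4_c0_t9 : CovD 1 gD4 [(125986406400, 11453595648), (687194767360, 137438953472), (1295332147200, 431777382400)] :=
  covD_E kD4_eq (.n 1 (.n 2 (.n 2 (.l 0) (.l 0)) (.n 2 (.l 0) (.n 0 (.l 0) (.l 0)))) (.n 2 (.n 2 (.l 0) (.l 0)) (.n 0 (.n 2 (.l 0) (.l 0)) (.l 1))))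
    [(125986406400, 11453595648), (687194767360, 137438953472), (1295332147200, 431777382400)] rfl (by decide +kernel)
theorem D4_c0_t11 : CovD 1 gD4 [(125986406400, 11453595648), (893353197568, 68719476736), (863554764800, 863554764800)] :=
  covD_E kD4_eq (.n 2 (.n 2 (.n 0 (.l 0) (.l 0)) (.n 2 (.l 0) (.l 0))) (.n 2 (.n 2 (.l 0) (.n 0 (.l 0) (.l 0))) (.n 0 (.n 2 (.l 0) (.l 0)) (.l 1))))
    [(125986406400, 11453595648), (893353197568, 68719476736), (863554764800, 863554764800)] rfl (by decide +kernel)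
end

mutual
theorem D4_c0_t12 : CovD 1 gD4 [(125986406400, 11453595648), (1030792151040, 68719476736), (863554764800, 863554764800)] :=
  covD_E kD4_eq (.n 2 (.n 2 (.n 1 (.l 0) (.l 0)) (.n 2 (.l 0) (.l 0))) (.n 0 (.n 2 (.n 1 (.l 0) (.l 0)) (.n 2 (.l 0) (.l 1))) (.n 2 (.n 2 (.l 0) (.l 0)) (.l 1))))
    [(125986406400, 11453595648), (1030792151040, 68719476736), (863554764800, 863554764800)] rfl (by decide +kernel)
theorem E4_c0_t1 : CovD 1 gE4 [(114532810752, 22907191296), (824633720832, 274877906944), (431777382400, 431777382400)] :=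
  covD_E kE4_eq (.n 0 (.n 1 (.n 2 (.l 1) (.n 0 (.l 1) (.l 1))) (.n 2 (.l 1) (.l 1))) (.n 1 (.n 2 (.l 1) (.l 1)) (.n 2 (.l 1) (.l 1))))
    [(114532810752, 22907191296), (824633720832, 274877906944), (431777382400, 431777382400)] rfl (by decide +kernel)
end

mutual
theorem E4_c0_t4 : CovD 1 gE4 [(97352417280, 5726797824), (824633720832, 274877906944), (1295332147200, 431777382400)] :=
  covD_E kE4_eq (.n 1 (.n 1 (.n 2 (.l 1) (.n 2 (.n 2 (.l 1) (.l 0)) (.n 0 (.l 0) (.l 0)))) (.n 2 (.l 1) (.n 2 (.n 2 (.l 0) (.l 0)) (.l 0)))) (.n 1 (.n 2 (.l 1) (.n 2 (.l 0) (.l 0))) (.n 2 (.l 1) (.n 2 (.l 1) (.l 0)))))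
    [(97352417280, 5726797824), (824633720832, 274877906944), (1295332147200, 431777382400)] rfl (by decide +kernel)
theorem E4_c0_t5 : CovD 1 gE4 [(108806012928, 5726797824), (824633720832, 274877906944), (1295332147200, 431777382400)] :=
  covD_E kE4_eq (.n 1 (.n 2 (.l 1) (.n 2 (.l 1) (.n 1 (.l 0) (.l 0)))) (.n 2 (.l 1) (.n 2 (.l 1) (.n 0 (.l 1) (.l 1)))))
    [(108806012928, 5726797824), (824633720832, 274877906944), (1295332147200, 431777382400)] rfl (by decide +kernel)
end

theorem E4_c0_t6 : CovD 1 gE4 [(125986406400, 11453595648), (824633720832, 274877906944), (1295332147200, 431777382400)] :=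
  covD_E kE4_eq (.n 1 (.n 0 (.n 2 (.l 1) (.n 1 (.l 1) (.l 1))) (.n 2 (.l 1) (.l 1))) (.n 2 (.l 1) (.n 0 (.l 1) (.l 1))))
    [(125986406400, 11453595648), (824633720832, 274877906944), (1295332147200, 431777382400)] rfl (by decide +kernel)

theorem A4_c0_t6 : CovD 1 gA4 [(97352417280, 5726797824), (618475290624, 68719476736), (1374389534720, 1374389534720)] :=
  covD_split 1 (by decide +kernel) A4_c0_t7 A4_c0_t8

theorem A4_c0_t5 : CovD 1 gA4 [(97352417280, 5726797824), (618475290624, 68719476736), (2748779069440, 2748779069440)] :=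
  covD_split 2 (by decide +kernel) A4_c0_t6 A4_c0_t9

theorem A4_c0_t4 : CovD 1 gA4 [(97352417280, 5726797824), (618475290624, 68719476736), (5497558138880, 5497558138880)] :=
  covD_split 2 (by decide +kernel) A4_c0_t5 A4_c0_t10

theorem A4_c0_t12 : CovD 1 gA4 [(97352417280, 5726797824), (755914244096, 68719476736), (2748779069440, 2748779069440)] :=
  covD_split 2 (by decide +kernel) A4_c0_t13 A4_c0_t14

theorem A4_c0_t11 : CovD 1 gA4 [(97352417280, 5726797824), (755914244096, 68719476736), (5497558138880, 5497558138880)] :=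
  covD_split 2 (by decide +kernel) A4_c0_t12 A4_c0_t15

theorem A4_c0_t3 : CovD 1 gA4 [(97352417280, 5726797824), (687194767360, 137438953472), (5497558138880, 5497558138880)] :=
  covD_split 1 (by decide +kernel) A4_c0_t4 A4_c0_t11

theorem A4_c0_t18 : CovD 1 gA4 [(108806012928, 5726797824), (618475290624, 68719476736), (2748779069440, 2748779069440)] :=
  covD_split 1 (by decide +kernel) A4_c0_t19 A4_c0_t20

theorem A4_c0_t17 : CovD 1 gA4 [(108806012928, 5726797824), (618475290624, 68719476736), (5497558138880, 5497558138880)] :=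
  covD_split 2 (by decide +kernel) A4_c0_t18 A4_c0_t21

theorem A4_c0_t23 : CovD 1 gA4 [(108806012928, 5726797824), (755914244096, 68719476736), (2748779069440, 2748779069440)] :=
  covD_split 2 (by decide +kernel) A4_c0_t24 A4_c0_t25

theorem A4_c0_t22 : CovD 1 gA4 [(108806012928, 5726797824), (755914244096, 68719476736), (5497558138880, 5497558138880)] :=
  covD_split 2 (by decide +kernel) A4_c0_t23 A4_c0_t26

theorem A4_c0_t16 : CovD 1 gA4 [(108806012928, 5726797824), (687194767360, 137438953472), (5497558138880, 5497558138880)] :=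
  covD_split 1 (by decide +kernel) A4_c0_t17 A4_c0_t22

theorem A4_c0_t2 : CovD 1 gA4 [(103079215104, 11453595648), (687194767360, 137438953472), (5497558138880, 5497558138880)] :=
  covD_split 0 (by decide +kernel) A4_c0_t3 A4_c0_t16

theorem A4_c0_t30 : CovD 1 gA4 [(120259608576, 5726797824), (584115552256, 34359738368), (5497558138880, 5497558138880)] :=
  covD_split 2 (by decide +kernel) A4_c0_t31 A4_c0_t32

theorem A4_c0_t29 : CovD 1 gA4 [(120259608576, 5726797824), (618475290624, 68719476736), (5497558138880, 5497558138880)] :=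
  covD_split 1 (by decide +kernel) A4_c0_t30 A4_c0_t33

theorem A4_c0_t35 : CovD 1 gA4 [(120259608576, 5726797824), (755914244096, 68719476736), (2748779069440, 2748779069440)] :=
  covD_split 2 (by decide +kernel) A4_c0_t36 A4_c0_t37

theorem A4_c0_t34 : CovD 1 gA4 [(120259608576, 5726797824), (755914244096, 68719476736), (5497558138880, 5497558138880)] :=
  covD_split 2 (by decide +kernel) A4_c0_t35 A4_c0_t38

theorem A4_c0_t28 : CovD 1 gA4 [(120259608576, 5726797824), (687194767360, 137438953472), (5497558138880, 5497558138880)] :=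
  covD_split 1 (by decide +kernel) A4_c0_t29 A4_c0_t34

theorem A4_c0_t41 : CovD 1 gA4 [(131713204224, 5726797824), (584115552256, 34359738368), (5497558138880, 5497558138880)] :=
  covD_split 2 (by decide +kernel) A4_c0_t42 A4_c0_t43

theorem A4_c0_t40 : CovD 1 gA4 [(131713204224, 5726797824), (618475290624, 68719476736), (5497558138880, 5497558138880)] :=
  covD_split 1 (by decide +kernel) A4_c0_t41 A4_c0_t44

theorem A4_c0_t46 : CovD 1 gA4 [(131713204224, 5726797824), (755914244096, 68719476736), (2748779069440, 2748779069440)] :=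
  covD_split 2 (by decide +kernel) A4_c0_t47 A4_c0_t48

theorem A4_c0_t45 : CovD 1 gA4 [(131713204224, 5726797824), (755914244096, 68719476736), (5497558138880, 5497558138880)] :=
  covD_split 2 (by decide +kernel) A4_c0_t46 A4_c0_t49

theorem A4_c0_t39 : CovD 1 gA4 [(131713204224, 5726797824), (687194767360, 137438953472), (5497558138880, 5497558138880)] :=
  covD_split 1 (by decide +kernel) A4_c0_t40 A4_c0_t45

theorem A4_c0_t27 : CovD 1 gA4 [(125986406400, 11453595648), (687194767360, 137438953472), (5497558138880, 5497558138880)] :=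
  covD_split 0 (by decide +kernel) A4_c0_t28 A4_c0_t39

theorem A4_c0_t1 : CovD 1 gA4 [(114532810752, 22907191296), (687194767360, 137438953472), (5497558138880, 5497558138880)] :=
  covD_split 0 (by decide +kernel) A4_c0_t2 A4_c0_t27

theorem A4_c0_t54 : CovD 1 gA4 [(97352417280, 5726797824), (893353197568, 68719476736), (2748779069440, 2748779069440)] :=
  covD_split 2 (by decide +kernel) A4_c0_t55 A4_c0_t56

theorem A4_c0_t53 : CovD 1 gA4 [(97352417280, 5726797824), (893353197568, 68719476736), (5497558138880, 5497558138880)] :=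
  covD_split 2 (by decide +kernel) A4_c0_t54 A4_c0_t57

theorem A4_c0_t58 : CovD 1 gA4 [(97352417280, 5726797824), (1030792151040, 68719476736), (5497558138880, 5497558138880)] :=
  covD_split 2 (by decide +kernel) A4_c0_t59 A4_c0_t60

theorem A4_c0_t52 : CovD 1 gA4 [(97352417280, 5726797824), (962072674304, 137438953472), (5497558138880, 5497558138880)] :=
  covD_split 1 (by decide +kernel) A4_c0_t53 A4_c0_t58

theorem A4_c0_t62 : CovD 1 gA4 [(108806012928, 5726797824), (893353197568, 68719476736), (5497558138880, 5497558138880)] :=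
  covD_split 2 (by decide +kernel) A4_c0_t63 A4_c0_t64

theorem A4_c0_t65 : CovD 1 gA4 [(108806012928, 5726797824), (1030792151040, 68719476736), (5497558138880, 5497558138880)] :=
  covD_split 2 (by decide +kernel) A4_c0_t66 A4_c0_t67

theorem A4_c0_t61 : CovD 1 gA4 [(108806012928, 5726797824), (962072674304, 137438953472), (5497558138880, 5497558138880)] :=
  covD_split 1 (by decide +kernel) A4_c0_t62 A4_c0_t65

theorem A4_c0_t51 : CovD 1 gA4 [(103079215104, 11453595648), (962072674304, 137438953472), (5497558138880, 5497558138880)] :=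
  covD_split 0 (by decide +kernel) A4_c0_t52 A4_c0_t61

theorem A4_c0_t70 : CovD 1 gA4 [(120259608576, 5726797824), (893353197568, 68719476736), (5497558138880, 5497558138880)] :=
  covD_split 2 (by decide +kernel) A4_c0_t71 A4_c0_t72

theorem A4_c0_t73 : CovD 1 gA4 [(120259608576, 5726797824), (1030792151040, 68719476736), (5497558138880, 5497558138880)] :=
  covD_split 2 (by decide +kernel) A4_c0_t74 A4_c0_t75

theorem A4_c0_t69 : CovD 1 gA4 [(120259608576, 5726797824), (962072674304, 137438953472), (5497558138880, 5497558138880)] :=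
  covD_split 1 (by decide +kernel) A4_c0_t70 A4_c0_t73

theorem A4_c0_t77 : CovD 1 gA4 [(131713204224, 5726797824), (893353197568, 68719476736), (5497558138880, 5497558138880)] :=
  covD_split 2 (by decide +kernel) A4_c0_t78 A4_c0_t79

theorem A4_c0_t80 : CovD 1 gA4 [(131713204224, 5726797824), (1030792151040, 68719476736), (5497558138880, 5497558138880)] :=
  covD_split 2 (by decide +kernel) A4_c0_t81 A4_c0_t82

theorem A4_c0_t76 : CovD 1 gA4 [(131713204224, 5726797824), (962072674304, 137438953472), (5497558138880, 5497558138880)] :=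
  covD_split 1 (by decide +kernel) A4_c0_t77 A4_c0_t80

theorem A4_c0_t68 : CovD 1 gA4 [(125986406400, 11453595648), (962072674304, 137438953472), (5497558138880, 5497558138880)] :=
  covD_split 0 (by decide +kernel) A4_c0_t69 A4_c0_t76

theorem A4_c0_t50 : CovD 1 gA4 [(114532810752, 22907191296), (962072674304, 137438953472), (5497558138880, 5497558138880)] :=
  covD_split 0 (by decide +kernel) A4_c0_t51 A4_c0_t68

theorem A4_c0 : CovD 1 gA4 [(114532810752, 22907191296), (824633720832, 274877906944), (5497558138880, 5497558138880)] :=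
  covD_split 1 (by decide +kernel) A4_c0_t1 A4_c0_t50

theorem B4_c0_t1 : CovD 1 gB4 [(103079215104, 11453595648), (824633720832, 274877906944), (54975791104, 54975791104)] :=
  covD_split 1 (by decide +kernel) B4_c0_t2 B4_c0_t3

theorem B4_c0_t4 : CovD 1 gB4 [(125986406400, 11453595648), (824633720832, 274877906944), (54975791104, 54975791104)] :=
  covD_split 0 (by decide +kernel) B4_c0_t5 B4_c0_t6

theorem B4_c0 : CovD 1 gB4 [(114532810752, 22907191296), (824633720832, 274877906944), (54975791104, 54975791104)] :=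
  covD_split 0 (by decide +kernel) B4_c0_t1 B4_c0_t4

theorem D4_c0_t3 : CovD 1 gD4 [(103079215104, 11453595648), (962072674304, 137438953472), (863554764800, 863554764800)] :=
  covD_split 1 (by decide +kernel) D4_c0_t4 D4_c0_t5

theorem D4_c0_t1 : CovD 1 gD4 [(103079215104, 11453595648), (824633720832, 274877906944), (863554764800, 863554764800)] :=
  covD_split 1 (by decide +kernel) D4_c0_t2 D4_c0_t3

theorem D4_c0_t7 : CovD 1 gD4 [(125986406400, 11453595648), (687194767360, 137438953472), (863554764800, 863554764800)] :=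
  covD_split 2 (by decide +kernel) D4_c0_t8 D4_c0_t9

theorem D4_c0_t10 : CovD 1 gD4 [(125986406400, 11453595648), (962072674304, 137438953472), (863554764800, 863554764800)] :=
  covD_split 1 (by decide +kernel) D4_c0_t11 D4_c0_t12

theorem D4_c0_t6 : CovD 1 gD4 [(125986406400, 11453595648), (824633720832, 274877906944), (863554764800, 863554764800)] :=
  covD_split 1 (by decide +kernel) D4_c0_t7 D4_c0_t10

theorem D4_c0 : CovD 1 gD4 [(114532810752, 22907191296), (824633720832, 274877906944), (863554764800, 863554764800)] :=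
  covD_split 0 (by decide +kernel) D4_c0_t1 D4_c0_t6

theorem E4_c0_t3 : CovD 1 gE4 [(103079215104, 11453595648), (824633720832, 274877906944), (1295332147200, 431777382400)] :=
  covD_split 0 (by decide +kernel) E4_c0_t4 E4_c0_t5

theorem E4_c0_t2 : CovD 1 gE4 [(114532810752, 22907191296), (824633720832, 274877906944), (1295332147200, 431777382400)] :=
  covD_split 0 (by decide +kernel) E4_c0_t3 E4_c0_t6

theorem E4_c0 : CovD 1 gE4 [(114532810752, 22907191296), (824633720832, 274877906944), (863554764800, 863554764800)] :=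
  covD_split 2 (by decide +kernel) E4_c0_t1 E4_c0_t2

end Pool.Agent.helper14.NR.E8c
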