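import Pool.Agent.helper14.NR.E8c.PN5

/-!
Generated: certificates.
-/

namespace Pool.Agent.helper14.NR.E8c

open Pool.Agent.helper31.IA (Z)
open Pool.Agent.helper31.IX (Op XOps runX Cov CovD cov_split covD_split)
open Pool.Agent.helper31.IC (TD)
open Pool.Agent.helper63.RG (reloc)
open Pool.Agent.helper63.NF hiding TD
open Pool.Agent.helper14.CF (xE covD_E)
open Pool.Agent.helper14.NR (share)

mutual
theorem A5_c0_t10 : CovD 1 gA5 [(97352417280, 5726797824), (566935683072, 17179869184), (343597383680, 343597383680)] :=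
  covD_E kA5_eq (.n 2 (.n 2 (.n 2 (.l 0) (.n 0 (.l 0) (.l 0))) (.n 2 (.n 0 (.l 0) (.l 0)) (.l 0))) (.n 2 (.n 2 (.l 0) (.l 0)) (.n 0 (.l 0) (.l 0))))
    [(97352417280, 5726797824), (566935683072, 17179869184), (343597383680, 343597383680)] rfl (by decide +kernel)
theorem A5_c0_t11 : CovD 1 gA5 [(97352417280, 5726797824), (601295421440, 17179869184), (343597383680, 343597383680)] :=
  covD_E kA5_eq (.n 2 (.n 2 (.n 2 (.l 0) (.l 0)) (.n 2 (.l 0) (.l 0))) (.n 0 (.n 2 (.l 0) (.l 0)) (.n 2 (.l 0) (.l 0))))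
    [(97352417280, 5726797824), (601295421440, 17179869184), (343597383680, 343597383680)] rfl (by decide +kernel)
end

mutual
theorem A5_c0_t12 : CovD 1 gA5 [(97352417280, 5726797824), (584115552256, 34359738368), (1030792151040, 343597383680)] :=
  covD_E kA5_eq (.n 2 (.n 0 (.n 2 (.l 0) (.l 0)) (.n 2 (.l 0) (.l 0))) (.n 2 (.n 0 (.l 0) (.l 0)) (.l 0)))
    [(97352417280, 5726797824), (584115552256, 34359738368), (1030792151040, 343597383680)] rfl (by decide +kernel)
theorem A5_c0_t13 : CovD 1 gA5 [(97352417280, 5726797824), (584115552256, 34359738368), (2061584302080, 687194767360)] :=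
  covD_E kA5_eq (.n 2 (.n 2 (.n 0 (.l 0) (.l 0)) (.l 0)) (.n 0 (.l 0) (.l 0)))
    [(97352417280, 5726797824), (584115552256, 34359738368), (2061584302080, 687194767360)] rfl (by decide +kernel)
end

mutual
theorem A5_c0_t14 : CovD 1 gA5 [(97352417280, 5726797824), (584115552256, 34359738368), (4123168604160, 1374389534720)] :=
  covD_E kA5_eq (.n 2 (.n 2 (.l 0) (.l 0)) (.n 0 (.n 2 (.l 0) (.l 0)) (.l 0)))
    [(97352417280, 5726797824), (584115552256, 34359738368), (4123168604160, 1374389534720)] rfl (by decide +kernel)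
theorem A5_c0_t17 : CovD 1 gA5 [(97352417280, 5726797824), (652835028992, 34359738368), (687194767360, 687194767360)] :=
  covD_E kA5_eq (.n 2 (.n 2 (.n 2 (.n 2 (.l 0) (.l 0)) (.n 2 (.l 0) (.l 0))) (.n 0 (.n 2 (.l 0) (.l 0)) (.n 2 (.l 0) (.l 0)))) (.n 2 (.n 2 (.n 0 (.l 0) (.l 0)) (.l 0)) (.n 0 (.l 0) (.l 0))))
    [(97352417280, 5726797824), (652835028992, 34359738368), (687194767360, 687194767360)] rfl (by decide +kernel)
end

mutual
theorem A5_c0_t18 : CovD 1 gA5 [(97352417280, 5726797824), (652835028992, 34359738368), (2061584302080, 687194767360)] :=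
  covD_E kA5_eq (.n 2 (.n 2 (.l 0) (.l 0)) (.n 0 (.l 0) (.l 0)))
    [(97352417280, 5726797824), (652835028992, 34359738368), (2061584302080, 687194767360)] rfl (by decide +kernel)
theorem A5_c0_t19 : CovD 1 gA5 [(97352417280, 5726797824), (652835028992, 34359738368), (4123168604160, 1374389534720)] :=
  covD_E kA5_eq (.n 2 (.n 2 (.l 0) (.l 0)) (.n 2 (.l 0) (.l 0)))
    [(97352417280, 5726797824), (652835028992, 34359738368), (4123168604160, 1374389534720)] rfl (by decide +kernel)
end

mutual
theorem A5_c0_t21 : CovD 1 gA5 [(94489018368, 2863398912), (618475290624, 68719476736), (8246337208320, 2748779069440)] :=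
  covD_E kA5_eq (.n 2 (.n 0 (.n 2 (.n 1 (.n 2 (.n 2 (.l 0) (.l 1)) (.l 1)) (.n 2 (.l 0) (.n 0 (.l 1) (.l 0)))) (.l 1)) (.n 2 (.n 2 (.l 0) (.n 2 (.l 0) (.l 0))) (.n 1 (.l 1) (.n 2 (.l 0) (.l 0))))) (.n 2 (.l 1) (.l 1)))
    [(94489018368, 2863398912), (618475290624, 68719476736), (8246337208320, 2748779069440)] rfl (by decide +kernel)
theorem A5_c0_t22 : CovD 1 gA5 [(100215816192, 2863398912), (618475290624, 68719476736), (8246337208320, 2748779069440)] :=
  covD_E kA5_eq (.n 2 (.n 2 (.n 2 (.l 0) (.l 0)) (.n 0 (.n 2 (.l 0) (.l 0)) (.l 0))) (.n 0 (.n 2 (.n 1 (.l 1) (.l 0)) (.l 1)) (.n 2 (.l 0) (.l 0))))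
    [(100215816192, 2863398912), (618475290624, 68719476736), (8246337208320, 2748779069440)] rfl (by decide +kernel)
end

mutual
theorem A5_c0_t29 : CovD 1 gA5 [(108806012928, 5726797824), (566935683072, 17179869184), (343597383680, 343597383680)] :=
  covD_E kA5_eq (.n 2 (.n 2 (.n 0 (.n 2 (.l 0) (.l 0)) (.n 2 (.l 0) (.l 0))) (.n 2 (.n 0 (.l 0) (.l 0)) (.l 0))) (.n 2 (.n 2 (.l 0) (.l 0)) (.n 0 (.l 0) (.l 0))))
    [(108806012928, 5726797824), (566935683072, 17179869184), (343597383680, 343597383680)] rfl (by decide +kernel)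
theorem A5_c0_t30 : CovD 1 gA5 [(108806012928, 5726797824), (601295421440, 17179869184), (343597383680, 343597383680)] :=
  covD_E kA5_eq (.n 2 (.n 2 (.n 2 (.l 0) (.l 0)) (.n 2 (.l 0) (.l 0))) (.n 0 (.n 2 (.l 0) (.l 0)) (.n 2 (.l 0) (.l 0))))
    [(108806012928, 5726797824), (601295421440, 17179869184), (343597383680, 343597383680)] rfl (by decide +kernel)
end

mutual
theorem A5_c0_t31 : CovD 1 gA5 [(108806012928, 5726797824), (584115552256, 34359738368), (1030792151040, 343597383680)] :=
  covD_E kA5_eq (.n 2 (.n 0 (.n 2 (.l 0) (.l 0)) (.n 2 (.l 0) (.l 0))) (.n 2 (.l 0) (.l 0)))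
    [(108806012928, 5726797824), (584115552256, 34359738368), (1030792151040, 343597383680)] rfl (by decide +kernel)
theorem A5_c0_t32 : CovD 1 gA5 [(108806012928, 5726797824), (584115552256, 34359738368), (2061584302080, 687194767360)] :=
  covD_E kA5_eq (.n 2 (.n 2 (.n 0 (.l 0) (.l 0)) (.l 0)) (.n 0 (.l 0) (.l 0)))
    [(108806012928, 5726797824), (584115552256, 34359738368), (2061584302080, 687194767360)] rfl (by decide +kernel)
end

mutual
theorem A5_c0_t33 : CovD 1 gA5 [(108806012928, 5726797824), (584115552256, 34359738368), (4123168604160, 1374389534720)] :=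
  covD_E kA5_eq (.n 2 (.n 2 (.l 0) (.l 0)) (.n 0 (.l 0) (.l 0)))
    [(108806012928, 5726797824), (584115552256, 34359738368), (4123168604160, 1374389534720)] rfl (by decide +kernel)
theorem A5_c0_t34 : CovD 1 gA5 [(108806012928, 5726797824), (584115552256, 34359738368), (8246337208320, 2748779069440)] :=
  covD_E kA5_eq (.n 2 (.n 2 (.l 0) (.l 0)) (.n 0 (.l 0) (.l 0)))
    [(108806012928, 5726797824), (584115552256, 34359738368), (8246337208320, 2748779069440)] rfl (by decide +kernel)
end

mutual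
theorem A5_c0_t38 : CovD 1 gA5 [(108806012928, 5726797824), (652835028992, 34359738368), (687194767360, 687194767360)] :=
  covD_E kA5_eq (.n 2 (.n 2 (.n 2 (.n 2 (.l 0) (.l 0)) (.n 2 (.l 0) (.l 0))) (.n 0 (.n 2 (.l 0) (.l 0)) (.n 2 (.l 0) (.l 0)))) (.n 2 (.n 2 (.n 0 (.l 0) (.l 0)) (.l 0)) (.n 0 (.l 0) (.l 0))))
    [(108806012928, 5726797824), (652835028992, 34359738368), (687194767360, 687194767360)] rfl (by decide +kernel)
theorem A5_c0_t39 : CovD 1 gA5 [(108806012928, 5726797824), (652835028992, 34359738368), (2061584302080, 687194767360)] :=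
  covD_E kA5_eq (.n 2 (.n 2 (.l 0) (.l 0)) (.n 0 (.l 0) (.l 0)))
    [(108806012928, 5726797824), (652835028992, 34359738368), (2061584302080, 687194767360)] rfl (by decide +kernel)
end

mutual
theorem A5_c0_t40 : CovD 1 gA5 [(108806012928, 5726797824), (652835028992, 34359738368), (4123168604160, 1374389534720)] :=
  covD_E kA5_eq (.n 2 (.n 2 (.l 0) (.l 0)) (.n 0 (.l 0) (.l 0)))
    [(108806012928, 5726797824), (652835028992, 34359738368), (4123168604160, 1374389534720)] rfl (by decide +kernel)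
theorem A5_c0_t41 : CovD 1 gA5 [(108806012928, 5726797824), (652835028992, 34359738368), (8246337208320, 2748779069440)] :=
  covD_E kA5_eq (.n 2 (.n 2 (.l 0) (.l 0)) (.n 0 (.l 0) (.l 0)))
    [(108806012928, 5726797824), (652835028992, 34359738368), (8246337208320, 2748779069440)] rfl (by decide +kernel)
end

mutual
theorem A5_c0_t49 : CovD 1 gA5 [(120259608576, 5726797824), (566935683072, 17179869184), (343597383680, 343597383680)] :=
  covD_E kA5_eq (.n 2 (.n 2 (.n 0 (.n 2 (.l 0) (.l 0)) (.n 2 (.l 0) (.l 0))) (.n 2 (.n 0 (.l 0) (.l 0)) (.l 0))) (.n 2 (.n 2 (.l 0) (.l 0)) (.n 0 (.l 0) (.l 0))))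
    [(120259608576, 5726797824), (566935683072, 17179869184), (343597383680, 343597383680)] rfl (by decide +kernel)
theorem A5_c0_t50 : CovD 1 gA5 [(120259608576, 5726797824), (601295421440, 17179869184), (343597383680, 343597383680)] :=
  covD_E kA5_eq (.n 2 (.n 2 (.n 2 (.l 0) (.l 0)) (.n 2 (.l 0) (.l 0))) (.n 2 (.n 0 (.l 0) (.l 0)) (.l 0)))
    [(120259608576, 5726797824), (601295421440, 17179869184), (343597383680, 343597383680)] rfl (by decide +kernel)
end

mutual
theorem A5_c0_t51 : CovD 1 gA5 [(120259608576, 5726797824), (584115552256, 34359738368), (1030792151040, 343597383680)] :=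
  covD_E kA5_eq (.n 2 (.n 0 (.n 2 (.l 0) (.l 0)) (.n 2 (.l 0) (.l 0))) (.n 2 (.l 0) (.l 0)))
    [(120259608576, 5726797824), (584115552256, 34359738368), (1030792151040, 343597383680)] rfl (by decide +kernel)
theorem A5_c0_t52 : CovD 1 gA5 [(120259608576, 5726797824), (584115552256, 34359738368), (2061584302080, 687194767360)] :=
  covD_E kA5_eq (.n 2 (.n 2 (.n 0 (.l 0) (.l 0)) (.l 0)) (.n 0 (.l 0) (.l 0)))
    [(120259608576, 5726797824), (584115552256, 34359738368), (2061584302080, 687194767360)] rfl (by decide +kernel)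
end

mutual
theorem A5_c0_t53 : CovD 1 gA5 [(120259608576, 5726797824), (584115552256, 34359738368), (4123168604160, 1374389534720)] :=
  covD_E kA5_eq (.n 2 (.n 2 (.l 0) (.l 0)) (.n 0 (.l 0) (.l 0)))
    [(120259608576, 5726797824), (584115552256, 34359738368), (4123168604160, 1374389534720)] rfl (by decide +kernel)
theorem A5_c0_t54 : CovD 1 gA5 [(120259608576, 5726797824), (584115552256, 34359738368), (8246337208320, 2748779069440)] :=
  covD_E kA5_eq (.n 2 (.n 2 (.l 0) (.l 0)) (.n 0 (.l 0) (.l 0)))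
    [(120259608576, 5726797824), (584115552256, 34359738368), (8246337208320, 2748779069440)] rfl (by decide +kernel)
end

mutual
theorem A5_c0_t57 : CovD 1 gA5 [(120259608576, 5726797824), (652835028992, 34359738368), (1374389534720, 1374389534720)] :=
  covD_E kA5_eq (.n 2 (.n 2 (.n 2 (.n 2 (.n 2 (.l 0) (.l 0)) (.n 1 (.l 0) (.l 0))) (.n 0 (.n 2 (.l 0) (.l 0)) (.n 2 (.l 0) (.l 0)))) (.n 2 (.n 2 (.l 0) (.l 0)) (.n 0 (.l 0) (.l 0)))) (.n 2 (.n 2 (.l 0) (.l 0)) (.n 0 (.l 0) (.l 0))))
    [(120259608576, 5726797824), (652835028992, 34359738368), (1374389534720, 1374389534720)] rfl (by decide +kernel)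
theorem A5_c0_t58 : CovD 1 gA5 [(120259608576, 5726797824), (652835028992, 34359738368), (4123168604160, 1374389534720)] :=
  covD_E kA5_eq (.n 2 (.n 2 (.l 0) (.l 0)) (.n 0 (.l 0) (.l 0)))
    [(120259608576, 5726797824), (652835028992, 34359738368), (4123168604160, 1374389534720)] rfl (by decide +kernel)
end

mutual
theorem A5_c0_t59 : CovD 1 gA5 [(120259608576, 5726797824), (652835028992, 34359738368), (8246337208320, 2748779069440)] :=
  covD_E kA5_eq (.n 2 (.n 2 (.l 0) (.l 0)) (.n 0 (.l 0) (.l 0)))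
    [(120259608576, 5726797824), (652835028992, 34359738368), (8246337208320, 2748779069440)] rfl (by decide +kernel)
theorem A5_c0_t66 : CovD 1 gA5 [(131713204224, 5726797824), (566935683072, 17179869184), (343597383680, 343597383680)] :=
  covD_E kA5_eq (.n 2 (.n 2 (.n 2 (.n 0 (.l 0) (.l 0)) (.n 2 (.l 0) (.l 0))) (.n 0 (.n 2 (.l 0) (.l 0)) (.n 2 (.l 0) (.l 0)))) (.n 2 (.n 2 (.l 0) (.l 0)) (.n 0 (.l 0) (.l 0))))
    [(131713204224, 5726797824), (566935683072, 17179869184), (343597383680, 343597383680)] rfl (by decide +kernel)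
end

mutual
theorem A5_c0_t67 : CovD 1 gA5 [(131713204224, 5726797824), (601295421440, 17179869184), (343597383680, 343597383680)] :=
  covD_E kA5_eq (.n 2 (.n 2 (.n 2 (.l 0) (.l 0)) (.n 2 (.l 0) (.l 0))) (.n 2 (.n 0 (.l 0) (.l 0)) (.l 0)))
    [(131713204224, 5726797824), (601295421440, 17179869184), (343597383680, 343597383680)] rfl (by decide +kernel)
theorem A5_c0_t68 : CovD 1 gA5 [(131713204224, 5726797824), (584115552256, 34359738368), (1030792151040, 343597383680)] :=
  covD_E kA5_eq (.n 2 (.n 0 (.n 2 (.l 0) (.l 0)) (.n 2 (.l 0) (.l 0))) (.n 2 (.l 0) (.l 0)))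
    [(131713204224, 5726797824), (584115552256, 34359738368), (1030792151040, 343597383680)] rfl (by decide +kernel)
end

mutual
theorem A5_c0_t69 : CovD 1 gA5 [(131713204224, 5726797824), (584115552256, 34359738368), (2061584302080, 687194767360)] :=
  covD_E kA5_eq (.n 2 (.n 2 (.n 0 (.l 0) (.l 0)) (.l 0)) (.n 0 (.l 0) (.l 0)))
    [(131713204224, 5726797824), (584115552256, 34359738368), (2061584302080, 687194767360)] rfl (by decide +kernel)
theorem A5_c0_t70 : CovD 1 gA5 [(131713204224, 5726797824), (584115552256, 34359738368), (4123168604160, 1374389534720)] :=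
  covD_E kA5_eq (.n 2 (.n 2 (.l 0) (.l 0)) (.n 0 (.l 0) (.l 0)))
    [(131713204224, 5726797824), (584115552256, 34359738368), (4123168604160, 1374389534720)] rfl (by decide +kernel)
end

mutual
theorem A5_c0_t71 : CovD 1 gA5 [(131713204224, 5726797824), (584115552256, 34359738368), (8246337208320, 2748779069440)] :=
  covD_E kA5_eq (.n 2 (.n 2 (.l 0) (.l 0)) (.n 0 (.l 0) (.l 0)))
    [(131713204224, 5726797824), (584115552256, 34359738368), (8246337208320, 2748779069440)] rfl (by decide +kernel)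
theorem A5_c0_t74 : CovD 1 gA5 [(131713204224, 5726797824), (652835028992, 34359738368), (1374389534720, 1374389534720)] :=
  covD_E kA5_eq (.n 2 (.n 2 (.n 1 (.n 2 (.n 2 (.l 0) (.l 0)) (.n 2 (.l 0) (.l 0))) (.n 2 (.n 2 (.l 0) (.l 0)) (.n 2 (.l 0) (.l 0)))) (.n 2 (.n 2 (.l 0) (.l 0)) (.n 0 (.l 0) (.l 0)))) (.n 2 (.n 2 (.l 0) (.l 0)) (.n 0 (.l 0) (.l 0))))
    [(131713204224, 5726797824), (652835028992, 34359738368), (1374389534720, 1374389534720)] rfl (by decide +kernel)
end

mutual
theorem A5_c0_t75 : CovD 1 gA5 [(131713204224, 5726797824), (652835028992, 34359738368), (4123168604160, 1374389534720)] :=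
  covD_E kA5_eq (.n 2 (.n 2 (.l 0) (.l 0)) (.n 0 (.l 0) (.l 0)))
    [(131713204224, 5726797824), (652835028992, 34359738368), (4123168604160, 1374389534720)] rfl (by decide +kernel)
theorem A5_c0_t76 : CovD 1 gA5 [(131713204224, 5726797824), (652835028992, 34359738368), (8246337208320, 2748779069440)] :=
  covD_E kA5_eq (.n 2 (.n 2 (.l 0) (.l 0)) (.n 0 (.l 0) (.l 0)))
    [(131713204224, 5726797824), (652835028992, 34359738368), (8246337208320, 2748779069440)] rfl (by decide +kernel)
end

mutual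
theorem A5_c0_t81 : CovD 1 gA5 [(97352417280, 5726797824), (721554505728, 34359738368), (2748779069440, 2748779069440)] :=
  covD_E kA5_eq (.n 2 (.n 2 (.n 2 (.n 2 (.n 2 (.l 0) (.l 0)) (.n 2 (.l 0) (.l 0))) (.n 2 (.n 0 (.l 0) (.l 0)) (.l 0))) (.n 2 (.n 2 (.l 0) (.l 0)) (.n 0 (.l 0) (.l 0)))) (.n 2 (.n 2 (.l 0) (.l 0)) (.n 0 (.l 0) (.l 0))))
    [(97352417280, 5726797824), (721554505728, 34359738368), (2748779069440, 2748779069440)] rfl (by decide +kernel)
theorem A5_c0_t82 : CovD 1 gA5 [(97352417280, 5726797824), (790273982464, 34359738368), (2748779069440, 2748779069440)] :=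
  covD_E kA5_eq (.n 2 (.n 2 (.n 2 (.n 0 (.n 2 (.l 0) (.l 0)) (.n 2 (.l 0) (.l 0))) (.n 2 (.l 0) (.l 0))) (.n 2 (.n 0 (.l 0) (.l 0)) (.l 0))) (.n 2 (.n 2 (.l 0) (.l 0)) (.n 0 (.l 0) (.l 0))))
    [(97352417280, 5726797824), (790273982464, 34359738368), (2748779069440, 2748779069440)] rfl (by decide +kernel)
end

mutual
theorem A5_c0_t83 : CovD 1 gA5 [(97352417280, 5726797824), (755914244096, 68719476736), (8246337208320, 2748779069440)] :=
  covD_E kA5_eq (.n 0 (.n 2 (.n 2 (.n 2 (.l 0) (.l 0)) (.n 2 (.l 0) (.n 2 (.l 0) (.l 0)))) (.n 2 (.n 0 (.l 1) (.l 0)) (.l 1))) (.n 2 (.n 2 (.l 0) (.l 0)) (.n 1 (.l 0) (.l 0))))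
    [(97352417280, 5726797824), (755914244096, 68719476736), (8246337208320, 2748779069440)] rfl (by decide +kernel)
theorem A5_c0_t86 : CovD 1 gA5 [(108806012928, 5726797824), (721554505728, 34359738368), (2748779069440, 2748779069440)] :=
  covD_E kA5_eq (.n 2 (.n 2 (.n 2 (.n 2 (.n 2 (.l 0) (.l 0)) (.n 2 (.l 0) (.l 0))) (.n 2 (.n 0 (.l 0) (.l 0)) (.l 0))) (.n 2 (.n 2 (.l 0) (.l 0)) (.l 0))) (.n 2 (.n 2 (.l 0) (.l 0)) (.n 0 (.l 0) (.l 0))))
    [(108806012928, 5726797824), (721554505728, 34359738368), (2748779069440, 2748779069440)] rfl (by decide +kernel)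
end

mutual
theorem A5_c0_t87 : CovD 1 gA5 [(108806012928, 5726797824), (721554505728, 34359738368), (8246337208320, 2748779069440)] :=
  covD_E kA5_eq (.n 2 (.n 2 (.l 0) (.l 0)) (.n 0 (.l 0) (.l 0)))
    [(108806012928, 5726797824), (721554505728, 34359738368), (8246337208320, 2748779069440)] rfl (by decide +kernel)
theorem A5_c0_t88 : CovD 1 gA5 [(108806012928, 5726797824), (790273982464, 34359738368), (5497558138880, 5497558138880)] :=
  covD_E kA5_eq (.n 2 (.n 2 (.n 2 (.n 2 (.n 2 (.n 0 (.l 0) (.l 0)) (.l 0)) (.n 2 (.l 0) (.l 0))) (.n 2 (.n 0 (.l 0) (.l 0)) (.l 0))) (.n 2 (.n 2 (.l 0) (.l 0)) (.l 0))) (.n 2 (.n 2 (.l 0) (.l 0)) (.l 0)))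
    [(108806012928, 5726797824), (790273982464, 34359738368), (5497558138880, 5497558138880)] rfl (by decide +kernel)
end

mutual
theorem A5_c0_t92 : CovD 1 gA5 [(120259608576, 5726797824), (721554505728, 34359738368), (2748779069440, 2748779069440)] :=
  covD_E kA5_eq (.n 2 (.n 2 (.n 2 (.n 2 (.n 2 (.l 0) (.l 0)) (.n 2 (.l 0) (.l 0))) (.n 2 (.n 0 (.l 0) (.l 0)) (.l 0))) (.n 2 (.n 2 (.l 0) (.l 0)) (.l 0))) (.n 2 (.n 2 (.l 0) (.l 0)) (.n 0 (.l 0) (.l 0))))
    [(120259608576, 5726797824), (721554505728, 34359738368), (2748779069440, 2748779069440)] rfl (by decide +kernel)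
theorem A5_c0_t93 : CovD 1 gA5 [(120259608576, 5726797824), (790273982464, 34359738368), (2748779069440, 2748779069440)] :=
  covD_E kA5_eq (.n 2 (.n 2 (.n 2 (.n 2 (.l 0) (.l 0)) (.n 2 (.l 0) (.l 0))) (.n 2 (.n 0 (.l 0) (.l 0)) (.l 0))) (.n 2 (.n 2 (.l 0) (.l 0)) (.l 0)))
    [(120259608576, 5726797824), (790273982464, 34359738368), (2748779069440, 2748779069440)] rfl (by decide +kernel)
end

mutual
theorem A5_c0_t94 : CovD 1 gA5 [(120259608576, 5726797824), (755914244096, 68719476736), (8246337208320, 2748779069440)] :=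
  covD_E kA5_eq (.n 2 (.n 0 (.n 2 (.l 0) (.l 0)) (.n 2 (.l 0) (.l 0))) (.n 2 (.l 0) (.l 0)))
    [(120259608576, 5726797824), (755914244096, 68719476736), (8246337208320, 2748779069440)] rfl (by decide +kernel)
theorem A5_c0_t97 : CovD 1 gA5 [(131713204224, 5726797824), (721554505728, 34359738368), (2748779069440, 2748779069440)] :=
  covD_E kA5_eq (.n 2 (.n 2 (.n 2 (.n 2 (.n 2 (.l 0) (.l 0)) (.n 0 (.l 0) (.l 0))) (.n 2 (.n 0 (.l 0) (.l 0)) (.l 0))) (.n 2 (.n 2 (.l 0) (.l 0)) (.l 0))) (.n 2 (.n 2 (.l 0) (.l 0)) (.n 0 (.l 0) (.l 0))))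
    [(131713204224, 5726797824), (721554505728, 34359738368), (2748779069440, 2748779069440)] rfl (by decide +kernel)
end

mutual
theorem A5_c0_t98 : CovD 1 gA5 [(131713204224, 5726797824), (721554505728, 34359738368), (8246337208320, 2748779069440)] :=
  covD_E kA5_eq (.n 2 (.n 2 (.l 0) (.l 0)) (.n 0 (.l 0) (.l 0)))
    [(131713204224, 5726797824), (721554505728, 34359738368), (8246337208320, 2748779069440)] rfl (by decide +kernel)
theorem A5_c0_t99 : CovD 1 gA5 [(131713204224, 5726797824), (790273982464, 34359738368), (5497558138880, 5497558138880)] :=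
  covD_E kA5_eq (.n 2 (.n 2 (.n 2 (.n 2 (.n 2 (.l 0) (.l 0)) (.n 2 (.l 0) (.l 0))) (.n 2 (.n 0 (.l 0) (.l 0)) (.l 0))) (.n 2 (.n 2 (.l 0) (.l 0)) (.l 0))) (.n 2 (.n 2 (.l 0) (.l 0)) (.l 0)))
    [(131713204224, 5726797824), (790273982464, 34359738368), (5497558138880, 5497558138880)] rfl (by decide +kernel)
end

mutual
theorem A5_c0_t105 : CovD 1 gA5 [(97352417280, 5726797824), (893353197568, 68719476736), (1374389534720, 1374389534720)] :=
  covD_E kA5_eq (.n 2 (.n 0 (.n 2 (.n 2 (.l 0) (.l 0)) (.n 2 (.l 0) (.l 0))) (.n 2 (.n 2 (.l 0) (.l 0)) (.n 2 (.l 0) (.l 0)))) (.n 2 (.n 2 (.n 0 (.l 0) (.l 0)) (.l 0)) (.n 0 (.l 0) (.l 0))))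
    [(97352417280, 5726797824), (893353197568, 68719476736), (1374389534720, 1374389534720)] rfl (by decide +kernel)
theorem A5_c0_t106 : CovD 1 gA5 [(97352417280, 5726797824), (893353197568, 68719476736), (4123168604160, 1374389534720)] :=
  covD_E kA5_eq (.n 2 (.n 0 (.n 2 (.l 0) (.l 0)) (.n 2 (.l 0) (.l 0))) (.n 2 (.l 0) (.l 0)))
    [(97352417280, 5726797824), (893353197568, 68719476736), (4123168604160, 1374389534720)] rfl (by decide +kernel)
end

mutual
theorem A5_c0_t107 : CovD 1 gA5 [(97352417280, 5726797824), (893353197568, 68719476736), (8246337208320, 2748779069440)] :=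
  covD_E kA5_eq (.n 2 (.n 0 (.n 2 (.l 0) (.l 0)) (.n 2 (.l 0) (.l 0))) (.n 2 (.l 0) (.l 0)))
    [(97352417280, 5726797824), (893353197568, 68719476736), (8246337208320, 2748779069440)] rfl (by decide +kernel)
theorem A5_c0_t110 : CovD 1 gA5 [(97352417280, 5726797824), (1030792151040, 68719476736), (1374389534720, 1374389534720)] :=
  covD_E kA5_eq (.n 2 (.n 2 (.n 2 (.l 0) (.n 0 (.l 0) (.l 0))) (.n 0 (.n 1 (.l 0) (.l 0)) (.n 1 (.l 0) (.l 0)))) (.n 1 (.n 2 (.l 0) (.l 0)) (.n 2 (.l 0) (.l 0))))
    [(97352417280, 5726797824), (1030792151040, 68719476736), (1374389534720, 1374389534720)] rfl (by decide +kernel)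
end

mutual
theorem A5_c0_t111 : CovD 1 gA5 [(97352417280, 5726797824), (1030792151040, 68719476736), (4123168604160, 1374389534720)] :=
  covD_E kA5_eq (.n 1 (.n 2 (.n 2 (.l 0) (.l 0)) (.l 0)) (.n 2 (.n 2 (.l 0) (.l 0)) (.n 0 (.l 0) (.l 0))))
    [(97352417280, 5726797824), (1030792151040, 68719476736), (4123168604160, 1374389534720)] rfl (by decide +kernel)
theorem A5_c0_t112 : CovD 1 gA5 [(97352417280, 5726797824), (1030792151040, 68719476736), (8246337208320, 2748779069440)] :=
  covD_E kA5_eq (.n 2 (.n 0 (.n 2 (.l 0) (.l 0)) (.n 2 (.l 0) (.l 0))) (.n 2 (.l 0) (.l 0)))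
    [(97352417280, 5726797824), (1030792151040, 68719476736), (8246337208320, 2748779069440)] rfl (by decide +kernel)
end

mutual
theorem A5_c0_t116 : CovD 1 gA5 [(108806012928, 5726797824), (893353197568, 68719476736), (1374389534720, 1374389534720)] :=
  covD_E kA5_eq (.n 2 (.n 0 (.n 2 (.n 2 (.l 0) (.l 0)) (.n 2 (.l 0) (.l 0))) (.n 2 (.n 2 (.l 0) (.l 0)) (.n 2 (.l 0) (.l 0)))) (.n 2 (.n 2 (.l 0) (.l 0)) (.n 0 (.l 0) (.l 0))))
    [(108806012928, 5726797824), (893353197568, 68719476736), (1374389534720, 1374389534720)] rfl (by decide +kernel)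
theorem A5_c0_t117 : CovD 1 gA5 [(108806012928, 5726797824), (893353197568, 68719476736), (4123168604160, 1374389534720)] :=
  covD_E kA5_eq (.n 2 (.n 2 (.n 0 (.l 0) (.l 0)) (.l 0)) (.n 1 (.l 0) (.l 0)))
    [(108806012928, 5726797824), (893353197568, 68719476736), (4123168604160, 1374389534720)] rfl (by decide +kernel)
end

mutual
theorem A5_c0_t118 : CovD 1 gA5 [(108806012928, 5726797824), (893353197568, 68719476736), (8246337208320, 2748779069440)] :=
  covD_E kA5_eq (.n 2 (.n 2 (.n 0 (.l 0) (.l 0)) (.l 0)) (.n 0 (.l 0) (.l 0)))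
    [(108806012928, 5726797824), (893353197568, 68719476736), (8246337208320, 2748779069440)] rfl (by decide +kernel)
theorem A5_c0_t120 : CovD 1 gA5 [(108806012928, 5726797824), (1030792151040, 68719476736), (2748779069440, 2748779069440)] :=
  covD_E kA5_eq (.n 2 (.n 2 (.n 2 (.n 2 (.l 0) (.l 0)) (.n 2 (.l 0) (.l 0))) (.n 1 (.n 2 (.l 0) (.l 0)) (.n 2 (.l 0) (.l 0)))) (.n 1 (.n 2 (.n 2 (.l 0) (.l 0)) (.l 0)) (.n 2 (.n 2 (.l 0) (.l 0)) (.l 0))))
    [(108806012928, 5726797824), (1030792151040, 68719476736), (2748779069440, 2748779069440)] rfl (by decide +kernel)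
end

mutual
theorem A5_c0_t121 : CovD 1 gA5 [(108806012928, 5726797824), (1030792151040, 68719476736), (8246337208320, 2748779069440)] :=
  covD_E kA5_eq (.n 2 (.n 0 (.n 2 (.l 0) (.l 0)) (.n 2 (.l 0) (.l 0))) (.n 2 (.l 0) (.l 0)))
    [(108806012928, 5726797824), (1030792151040, 68719476736), (8246337208320, 2748779069440)] rfl (by decide +kernel)
theorem A5_c0_t126 : CovD 1 gA5 [(120259608576, 5726797824), (893353197568, 68719476736), (1374389534720, 1374389534720)] :=
  covD_E kA5_eq (.n 2 (.n 0 (.n 2 (.n 2 (.l 0) (.l 0)) (.n 2 (.l 0) (.l 0))) (.n 2 (.n 2 (.l 0) (.l 0)) (.n 1 (.l 0) (.l 0)))) (.n 2 (.n 2 (.l 0) (.l 0)) (.n 0 (.l 0) (.l 0))))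
    [(120259608576, 5726797824), (893353197568, 68719476736), (1374389534720, 1374389534720)] rfl (by decide +kernel)
end

mutual
theorem A5_c0_t127 : CovD 1 gA5 [(120259608576, 5726797824), (893353197568, 68719476736), (4123168604160, 1374389534720)] :=
  covD_E kA5_eq (.n 2 (.n 2 (.n 0 (.l 0) (.l 0)) (.l 0)) (.n 1 (.l 0) (.l 0)))
    [(120259608576, 5726797824), (893353197568, 68719476736), (4123168604160, 1374389534720)] rfl (by decide +kernel)
theorem A5_c0_t128 : CovD 1 gA5 [(120259608576, 5726797824), (893353197568, 68719476736), (8246337208320, 2748779069440)] :=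
  covD_E kA5_eq (.n 2 (.n 2 (.n 0 (.l 0) (.l 0)) (.l 0)) (.n 1 (.l 0) (.l 0)))
    [(120259608576, 5726797824), (893353197568, 68719476736), (8246337208320, 2748779069440)] rfl (by decide +kernel)
end

mutual
theorem A5_c0_t130 : CovD 1 gA5 [(120259608576, 5726797824), (1030792151040, 68719476736), (2748779069440, 2748779069440)] :=
  covD_E kA5_eq (.n 2 (.n 2 (.n 2 (.n 2 (.l 0) (.l 0)) (.n 2 (.l 0) (.l 0))) (.n 1 (.n 2 (.l 0) (.l 0)) (.n 2 (.l 0) (.l 0)))) (.n 2 (.n 2 (.n 0 (.l 0) (.l 0)) (.l 0)) (.n 1 (.l 0) (.l 0))))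
    [(120259608576, 5726797824), (1030792151040, 68719476736), (2748779069440, 2748779069440)] rfl (by decide +kernel)
theorem A5_c0_t131 : CovD 1 gA5 [(120259608576, 5726797824), (1030792151040, 68719476736), (8246337208320, 2748779069440)] :=
  covD_E kA5_eq (.n 1 (.n 2 (.n 2 (.l 0) (.l 0)) (.l 0)) (.n 2 (.n 2 (.l 0) (.l 0)) (.l 0)))
    [(120259608576, 5726797824), (1030792151040, 68719476736), (8246337208320, 2748779069440)] rfl (by decide +kernel)
end

mutual
theorem A5_c0_t135 : CovD 1 gA5 [(131713204224, 5726797824), (893353197568, 68719476736), (1374389534720, 1374389534720)] :=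
  covD_E kA5_eq (.n 1 (.n 2 (.n 2 (.n 2 (.l 0) (.l 0)) (.n 0 (.l 0) (.l 0))) (.n 2 (.l 0) (.l 0))) (.n 2 (.n 0 (.n 2 (.l 0) (.l 0)) (.n 2 (.l 0) (.l 0))) (.n 2 (.l 0) (.l 0))))
    [(131713204224, 5726797824), (893353197568, 68719476736), (1374389534720, 1374389534720)] rfl (by decide +kernel)
theorem A5_c0_t136 : CovD 1 gA5 [(131713204224, 5726797824), (893353197568, 68719476736), (4123168604160, 1374389534720)] :=
  covD_E kA5_eq (.n 2 (.n 2 (.n 0 (.l 0) (.l 0)) (.l 0)) (.n 1 (.l 0) (.l 0)))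
    [(131713204224, 5726797824), (893353197568, 68719476736), (4123168604160, 1374389534720)] rfl (by decide +kernel)
end

mutual
theorem A5_c0_t137 : CovD 1 gA5 [(131713204224, 5726797824), (893353197568, 68719476736), (8246337208320, 2748779069440)] :=
  covD_E kA5_eq (.n 2 (.n 2 (.n 0 (.l 0) (.l 0)) (.l 0)) (.n 1 (.l 0) (.l 0)))
    [(131713204224, 5726797824), (893353197568, 68719476736), (8246337208320, 2748779069440)] rfl (by decide +kernel)
theorem A5_c0_t139 : CovD 1 gA5 [(131713204224, 5726797824), (1030792151040, 68719476736), (2748779069440, 2748779069440)] :=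
  covD_E kA5_eq (.n 2 (.n 2 (.n 2 (.n 2 (.l 0) (.l 0)) (.n 2 (.l 0) (.l 0))) (.n 1 (.n 2 (.l 0) (.l 0)) (.n 2 (.l 0) (.l 0)))) (.n 2 (.n 2 (.n 0 (.l 0) (.l 0)) (.l 0)) (.n 1 (.l 0) (.l 0))))
    [(131713204224, 5726797824), (1030792151040, 68719476736), (2748779069440, 2748779069440)] rfl (by decide +kernel)
end

theorem A5_c0_t140 : CovD 1 gA5 [(131713204224, 5726797824), (1030792151040, 68719476736), (8246337208320, 2748779069440)] :=
  covD_E kA5_eq (.n 1 (.n 2 (.n 2 (.l 0) (.l 0)) (.l 0)) (.n 2 (.n 2 (.l 0) (.l 0)) (.l 0)))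
    [(131713204224, 5726797824), (1030792151040, 68719476736), (8246337208320, 2748779069440)] rfl (by decide +kernel)

theorem A5_c0_t9 : CovD 1 gA5 [(97352417280, 5726797824), (584115552256, 34359738368), (343597383680, 343597383680)] :=
  covD_split 1 (by decide +kernel) A5_c0_t10 A5_c0_t11

theorem A5_c0_t8 : CovD 1 gA5 [(97352417280, 5726797824), (584115552256, 34359738368), (687194767360, 687194767360)] :=
  covD_split 2 (by decide +kernel) A5_c0_t9 A5_c0_t12

theorem A5_c0_t7 : CovD 1 gA5 [(97352417280, 5726797824), (584115552256, 34359738368), (1374389534720, 1374389534720)] :=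
  covD_split 2 (by decide +kernel) A5_c0_t8 A5_c0_t13

theorem A5_c0_t6 : CovD 1 gA5 [(97352417280, 5726797824), (584115552256, 34359738368), (2748779069440, 2748779069440)] :=
  covD_split 2 (by decide +kernel) A5_c0_t7 A5_c0_t14

theorem A5_c0_t16 : CovD 1 gA5 [(97352417280, 5726797824), (652835028992, 34359738368), (1374389534720, 1374389534720)] :=
  covD_split 2 (by decide +kernel) A5_c0_t17 A5_c0_t18

theorem A5_c0_t15 : CovD 1 gA5 [(97352417280, 5726797824), (652835028992, 34359738368), (2748779069440, 2748779069440)] :=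
  covD_split 2 (by decide +kernel) A5_c0_t16 A5_c0_t19

theorem A5_c0_t5 : CovD 1 gA5 [(97352417280, 5726797824), (618475290624, 68719476736), (2748779069440, 2748779069440)] :=
  covD_split 1 (by decide +kernel) A5_c0_t6 A5_c0_t15

theorem A5_c0_t20 : CovD 1 gA5 [(97352417280, 5726797824), (618475290624, 68719476736), (8246337208320, 2748779069440)] :=
  covD_split 0 (by decide +kernel) A5_c0_t21 A5_c0_t22

theorem A5_c0_t4 : CovD 1 gA5 [(97352417280, 5726797824), (618475290624, 68719476736), (5497558138880, 5497558138880)] :=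
  covD_split 2 (by decide +kernel) A5_c0_t5 A5_c0_t20

theorem A5_c0_t28 : CovD 1 gA5 [(108806012928, 5726797824), (584115552256, 34359738368), (343597383680, 343597383680)] :=
  covD_split 1 (by decide +kernel) A5_c0_t29 A5_c0_t30

theorem A5_c0_t27 : CovD 1 gA5 [(108806012928, 5726797824), (584115552256, 34359738368), (687194767360, 687194767360)] :=
  covD_split 2 (by decide +kernel) A5_c0_t28 A5_c0_t31

theorem A5_c0_t26 : CovD 1 gA5 [(108806012928, 5726797824), (584115552256, 34359738368), (1374389534720, 1374389534720)] :=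
  covD_split 2 (by decide +kernel) A5_c0_t27 A5_c0_t32

theorem A5_c0_t25 : CovD 1 gA5 [(108806012928, 5726797824), (584115552256, 34359738368), (2748779069440, 2748779069440)] :=
  covD_split 2 (by decide +kernel) A5_c0_t26 A5_c0_t33

theorem A5_c0_t24 : CovD 1 gA5 [(108806012928, 5726797824), (584115552256, 34359738368), (5497558138880, 5497558138880)] :=
  covD_split 2 (by decide +kernel) A5_c0_t25 A5_c0_t34

theorem A5_c0_t37 : CovD 1 gA5 [(108806012928, 5726797824), (652835028992, 34359738368), (1374389534720, 1374389534720)] :=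
  covD_split 2 (by decide +kernel) A5_c0_t38 A5_c0_t39

theorem A5_c0_t36 : CovD 1 gA5 [(108806012928, 5726797824), (652835028992, 34359738368), (2748779069440, 2748779069440)] :=
  covD_split 2 (by decide +kernel) A5_c0_t37 A5_c0_t40

theorem A5_c0_t35 : CovD 1 gA5 [(108806012928, 5726797824), (652835028992, 34359738368), (5497558138880, 5497558138880)] :=
  covD_split 2 (by decide +kernel) A5_c0_t36 A5_c0_t41

theorem A5_c0_t23 : CovD 1 gA5 [(108806012928, 5726797824), (618475290624, 68719476736), (5497558138880, 5497558138880)] :=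
  covD_split 1 (by decide +kernel) A5_c0_t24 A5_c0_t35

theorem A5_c0_t3 : CovD 1 gA5 [(103079215104, 11453595648), (618475290624, 68719476736), (5497558138880, 5497558138880)] :=
  covD_split 0 (by decide +kernel) A5_c0_t4 A5_c0_t23

theorem A5_c0_t48 : CovD 1 gA5 [(120259608576, 5726797824), (584115552256, 34359738368), (343597383680, 343597383680)] :=
  covD_split 1 (by decide +kernel) A5_c0_t49 A5_c0_t50

theorem A5_c0_t47 : CovD 1 gA5 [(120259608576, 5726797824), (584115552256, 34359738368), (687194767360, 687194767360)] :=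
  covD_split 2 (by decide +kernel) A5_c0_t48 A5_c0_t51

theorem A5_c0_t46 : CovD 1 gA5 [(120259608576, 5726797824), (584115552256, 34359738368), (1374389534720, 1374389534720)] :=
  covD_split 2 (by decide +kernel) A5_c0_t47 A5_c0_t52

theorem A5_c0_t45 : CovD 1 gA5 [(120259608576, 5726797824), (584115552256, 34359738368), (2748779069440, 2748779069440)] :=
  covD_split 2 (by decide +kernel) A5_c0_t46 A5_c0_t53

theorem A5_c0_t44 : CovD 1 gA5 [(120259608576, 5726797824), (584115552256, 34359738368), (5497558138880, 5497558138880)] :=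
  covD_split 2 (by decide +kernel) A5_c0_t45 A5_c0_t54

theorem A5_c0_t56 : CovD 1 gA5 [(120259608576, 5726797824), (652835028992, 34359738368), (2748779069440, 2748779069440)] :=
  covD_split 2 (by decide +kernel) A5_c0_t57 A5_c0_t58

theorem A5_c0_t55 : CovD 1 gA5 [(120259608576, 5726797824), (652835028992, 34359738368), (5497558138880, 5497558138880)] :=
  covD_split 2 (by decide +kernel) A5_c0_t56 A5_c0_t59

theorem A5_c0_t43 : CovD 1 gA5 [(120259608576, 5726797824), (618475290624, 68719476736), (5497558138880, 5497558138880)] :=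
  covD_split 1 (by decide +kernel) A5_c0_t44 A5_c0_t55

theorem A5_c0_t65 : CovD 1 gA5 [(131713204224, 5726797824), (584115552256, 34359738368), (343597383680, 343597383680)] :=
  covD_split 1 (by decide +kernel) A5_c0_t66 A5_c0_t67

theorem A5_c0_t64 : CovD 1 gA5 [(131713204224, 5726797824), (584115552256, 34359738368), (687194767360, 687194767360)] :=
  covD_split 2 (by decide +kernel) A5_c0_t65 A5_c0_t68

theorem A5_c0_t63 : CovD 1 gA5 [(131713204224, 5726797824), (584115552256, 34359738368), (1374389534720, 1374389534720)] :=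
  covD_split 2 (by decide +kernel) A5_c0_t64 A5_c0_t69

theorem A5_c0_t62 : CovD 1 gA5 [(131713204224, 5726797824), (584115552256, 34359738368), (2748779069440, 2748779069440)] :=
  covD_split 2 (by decide +kernel) A5_c0_t63 A5_c0_t70

theorem A5_c0_t61 : CovD 1 gA5 [(131713204224, 5726797824), (584115552256, 34359738368), (5497558138880, 5497558138880)] :=
  covD_split 2 (by decide +kernel) A5_c0_t62 A5_c0_t71

theorem A5_c0_t73 : CovD 1 gA5 [(131713204224, 5726797824), (652835028992, 34359738368), (2748779069440, 2748779069440)] :=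
  covD_split 2 (by decide +kernel) A5_c0_t74 A5_c0_t75

theorem A5_c0_t72 : CovD 1 gA5 [(131713204224, 5726797824), (652835028992, 34359738368), (5497558138880, 5497558138880)] :=
  covD_split 2 (by decide +kernel) A5_c0_t73 A5_c0_t76

theorem A5_c0_t60 : CovD 1 gA5 [(131713204224, 5726797824), (618475290624, 68719476736), (5497558138880, 5497558138880)] :=
  covD_split 1 (by decide +kernel) A5_c0_t61 A5_c0_t72

theorem A5_c0_t42 : CovD 1 gA5 [(125986406400, 11453595648), (618475290624, 68719476736), (5497558138880, 5497558138880)] :=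
  covD_split 0 (by decide +kernel) A5_c0_t43 A5_c0_t60

theorem A5_c0_t2 : CovD 1 gA5 [(114532810752, 22907191296), (618475290624, 68719476736), (5497558138880, 5497558138880)] :=
  covD_split 0 (by decide +kernel) A5_c0_t3 A5_c0_t42

theorem A5_c0_t80 : CovD 1 gA5 [(97352417280, 5726797824), (755914244096, 68719476736), (2748779069440, 2748779069440)] :=
  covD_split 1 (by decide +kernel) A5_c0_t81 A5_c0_t82

theorem A5_c0_t79 : CovD 1 gA5 [(97352417280, 5726797824), (755914244096, 68719476736), (5497558138880, 5497558138880)] :=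
  covD_split 2 (by decide +kernel) A5_c0_t80 A5_c0_t83

theorem A5_c0_t85 : CovD 1 gA5 [(108806012928, 5726797824), (721554505728, 34359738368), (5497558138880, 5497558138880)] :=
  covD_split 2 (by decide +kernel) A5_c0_t86 A5_c0_t87

theorem A5_c0_t84 : CovD 1 gA5 [(108806012928, 5726797824), (755914244096, 68719476736), (5497558138880, 5497558138880)] :=
  covD_split 1 (by decide +kernel) A5_c0_t85 A5_c0_t88

theorem A5_c0_t78 : CovD 1 gA5 [(103079215104, 11453595648), (755914244096, 68719476736), (5497558138880, 5497558138880)] :=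
  covD_split 0 (by decide +kernel) A5_c0_t79 A5_c0_t84

theorem A5_c0_t91 : CovD 1 gA5 [(120259608576, 5726797824), (755914244096, 68719476736), (2748779069440, 2748779069440)] :=
  covD_split 1 (by decide +kernel) A5_c0_t92 A5_c0_t93

theorem A5_c0_t90 : CovD 1 gA5 [(120259608576, 5726797824), (755914244096, 68719476736), (5497558138880, 5497558138880)] :=
  covD_split 2 (by decide +kernel) A5_c0_t91 A5_c0_t94

theorem A5_c0_t96 : CovD 1 gA5 [(131713204224, 5726797824), (721554505728, 34359738368), (5497558138880, 5497558138880)] :=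
  covD_split 2 (by decide +kernel) A5_c0_t97 A5_c0_t98

theorem A5_c0_t95 : CovD 1 gA5 [(131713204224, 5726797824), (755914244096, 68719476736), (5497558138880, 5497558138880)] :=
  covD_split 1 (by decide +kernel) A5_c0_t96 A5_c0_t99

theorem A5_c0_t89 : CovD 1 gA5 [(125986406400, 11453595648), (755914244096, 68719476736), (5497558138880, 5497558138880)] :=
  covD_split 0 (by decide +kernel) A5_c0_t90 A5_c0_t95

theorem A5_c0_t77 : CovD 1 gA5 [(114532810752, 22907191296), (755914244096, 68719476736), (5497558138880, 5497558138880)] :=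
  covD_split 0 (by decide +kernel) A5_c0_t78 A5_c0_t89

theorem A5_c0_t1 : CovD 1 gA5 [(114532810752, 22907191296), (687194767360, 137438953472), (5497558138880, 5497558138880)] :=
  covD_split 1 (by decide +kernel) A5_c0_t2 A5_c0_t77

theorem A5_c0_t104 : CovD 1 gA5 [(97352417280, 5726797824), (893353197568, 68719476736), (2748779069440, 2748779069440)] :=
  covD_split 2 (by decide +kernel) A5_c0_t105 A5_c0_t106

theorem A5_c0_t103 : CovD 1 gA5 [(97352417280, 5726797824), (893353197568, 68719476736), (5497558138880, 5497558138880)] :=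
  covD_split 2 (by decide +kernel) A5_c0_t104 A5_c0_t107

theorem A5_c0_t109 : CovD 1 gA5 [(97352417280, 5726797824), (1030792151040, 68719476736), (2748779069440, 2748779069440)] :=
  covD_split 2 (by decide +kernel) A5_c0_t110 A5_c0_t111

theorem A5_c0_t108 : CovD 1 gA5 [(97352417280, 5726797824), (1030792151040, 68719476736), (5497558138880, 5497558138880)] :=
  covD_split 2 (by decide +kernel) A5_c0_t109 A5_c0_t112

theorem A5_c0_t102 : CovD 1 gA5 [(97352417280, 5726797824), (962072674304, 137438953472), (5497558138880, 5497558138880)] :=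
  covD_split 1 (by decide +kernel) A5_c0_t103 A5_c0_t108

theorem A5_c0_t115 : CovD 1 gA5 [(108806012928, 5726797824), (893353197568, 68719476736), (2748779069440, 2748779069440)] :=
  covD_split 2 (by decide +kernel) A5_c0_t116 A5_c0_t117

theorem A5_c0_t114 : CovD 1 gA5 [(108806012928, 5726797824), (893353197568, 68719476736), (5497558138880, 5497558138880)] :=
  covD_split 2 (by decide +kernel) A5_c0_t115 A5_c0_t118

theorem A5_c0_t119 : CovD 1 gA5 [(108806012928, 5726797824), (1030792151040, 68719476736), (5497558138880, 5497558138880)] :=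
  covD_split 2 (by decide +kernel) A5_c0_t120 A5_c0_t121

theorem A5_c0_t113 : CovD 1 gA5 [(108806012928, 5726797824), (962072674304, 137438953472), (5497558138880, 5497558138880)] :=
  covD_split 1 (by decide +kernel) A5_c0_t114 A5_c0_t119

theorem A5_c0_t101 : CovD 1 gA5 [(103079215104, 11453595648), (962072674304, 137438953472), (5497558138880, 5497558138880)] :=
  covD_split 0 (by decide +kernel) A5_c0_t102 A5_c0_t113

theorem A5_c0_t125 : CovD 1 gA5 [(120259608576, 5726797824), (893353197568, 68719476736), (2748779069440, 2748779069440)] :=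
  covD_split 2 (by decide +kernel) A5_c0_t126 A5_c0_t127

theorem A5_c0_t124 : CovD 1 gA5 [(120259608576, 5726797824), (893353197568, 68719476736), (5497558138880, 5497558138880)] :=
  covD_split 2 (by decide +kernel) A5_c0_t125 A5_c0_t128

theorem A5_c0_t129 : CovD 1 gA5 [(120259608576, 5726797824), (1030792151040, 68719476736), (5497558138880, 5497558138880)] :=
  covD_split 2 (by decide +kernel) A5_c0_t130 A5_c0_t131

theorem A5_c0_t123 : CovD 1 gA5 [(120259608576, 5726797824), (962072674304, 137438953472), (5497558138880, 5497558138880)] :=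
  covD_split 1 (by decide +kernel) A5_c0_t124 A5_c0_t129

theorem A5_c0_t134 : CovD 1 gA5 [(131713204224, 5726797824), (893353197568, 68719476736), (2748779069440, 2748779069440)] :=
  covD_split 2 (by decide +kernel) A5_c0_t135 A5_c0_t136

theorem A5_c0_t133 : CovD 1 gA5 [(131713204224, 5726797824), (893353197568, 68719476736), (5497558138880, 5497558138880)] :=
  covD_split 2 (by decide +kernel) A5_c0_t134 A5_c0_t137

theorem A5_c0_t138 : CovD 1 gA5 [(131713204224, 5726797824), (1030792151040, 68719476736), (5497558138880, 5497558138880)] :=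
  covD_split 2 (by decide +kernel) A5_c0_t139 A5_c0_t140

theorem A5_c0_t132 : CovD 1 gA5 [(131713204224, 5726797824), (962072674304, 137438953472), (5497558138880, 5497558138880)] :=
  covD_split 1 (by decide +kernel) A5_c0_t133 A5_c0_t138

theorem A5_c0_t122 : CovD 1 gA5 [(125986406400, 11453595648), (962072674304, 137438953472), (5497558138880, 5497558138880)] :=
  covD_split 0 (by decide +kernel) A5_c0_t123 A5_c0_t132

theorem A5_c0_t100 : CovD 1 gA5 [(114532810752, 22907191296), (962072674304, 137438953472), (5497558138880, 5497558138880)] :=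
  covD_split 0 (by decide +kernel) A5_c0_t101 A5_c0_t122

theorem A5_c0 : CovD 1 gA5 [(114532810752, 22907191296), (824633720832, 274877906944), (5497558138880, 5497558138880)] :=
  covD_split 1 (by decide +kernel) A5_c0_t1 A5_c0_t100

end Pool.Agent.helper14.NR.E8c
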