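import Pool.Agent.helper14.NR.E8c.PN5

/-!
Generated: certificates.
-/

namespace Pool.Agent.helper14.NR.E8c

open Pool.Agent.helper31.IA (Z)
open Pool.Agent.helper31.IX (Op XOps runX Cov CovD cov_split covD_split)
open Pool.Agent.helper31.IC (TD)
open Pool.Agent.helper63.RG (reloc)
open Pool.Agent.helper63.NF hiding TD
open Pool.Agent.helper14.CF (xE covD_E)
open Pool.Agent.helper14.NR (share)

mutual
theorem B5_c0_t3 : CovD 1 gB5 [(97352417280, 5726797824), (687194767360, 137438953472), (54975791104, 54975791104)] :=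
  covD_E kB5_eq (.n 1 (.n 2 (.n 2 (.l 1) (.l 1)) (.n 2 (.l 1) (.n 2 (.l 1) (.l 1)))) (.n 2 (.n 2 (.n 2 (.l 1) (.l 1)) (.n 0 (.l 1) (.n 0 (.l 1) (.l 0)))) (.n 0 (.n 2 (.l 1) (.l 1)) (.n 2 (.n 2 (.l 0) (.l 0)) (.l 0)))))
    [(97352417280, 5726797824), (687194767360, 137438953472), (54975791104, 54975791104)] rfl (by decide +kernel)
theorem B5_c0_t4 : CovD 1 gB5 [(97352417280, 5726797824), (962072674304, 137438953472), (54975791104, 54975791104)] :=
  covD_E kB5_eq (.n 1 (.n 1 (.n 0 (.n 2 (.n 2 (.l 1) (.l 1)) (.n 2 (.l 1) (.l 0))) (.n 2 (.l 0) (.l 0))) (.n 2 (.n 2 (.l 0) (.l 0)) (.n 2 (.l 0) (.l 0)))) (.n 2 (.n 2 (.l 0) (.l 0)) (.n 0 (.l 0) (.l 0))))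
    [(97352417280, 5726797824), (962072674304, 137438953472), (54975791104, 54975791104)] rfl (by decide +kernel)
end

mutual
theorem B5_c0_t6 : CovD 1 gB5 [(108806012928, 5726797824), (687194767360, 137438953472), (54975791104, 54975791104)] :=
  covD_E kB5_eq (.n 0 (.n 1 (.n 2 (.n 0 (.n 2 (.l 1) (.l 1)) (.n 2 (.l 0) (.l 0))) (.n 2 (.n 1 (.l 0) (.l 0)) (.l 0))) (.n 2 (.l 0) (.l 0))) (.n 1 (.n 2 (.l 0) (.l 0)) (.n 2 (.l 0) (.l 0))))
    [(108806012928, 5726797824), (687194767360, 137438953472), (54975791104, 54975791104)] rfl (by decide +kernel)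
theorem B5_c0_t7 : CovD 1 gB5 [(108806012928, 5726797824), (962072674304, 137438953472), (54975791104, 54975791104)] :=
  covD_E kB5_eq (.n 1 (.n 2 (.l 0) (.l 0)) (.n 2 (.l 0) (.n 0 (.l 0) (.l 0))))
    [(108806012928, 5726797824), (962072674304, 137438953472), (54975791104, 54975791104)] rfl (by decide +kernel)
end

mutual
theorem B5_c0_t9 : CovD 1 gB5 [(120259608576, 5726797824), (824633720832, 274877906944), (54975791104, 54975791104)] :=
  covD_E kB5_eq (.n 1 (.n 1 (.n 0 (.n 2 (.l 0) (.l 0)) (.n 1 (.l 0) (.l 0))) (.n 2 (.l 0) (.l 0))) (.n 1 (.n 2 (.l 0) (.l 0)) (.n 2 (.l 0) (.l 0))))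
    [(120259608576, 5726797824), (824633720832, 274877906944), (54975791104, 54975791104)] rfl (by decide +kernel)
theorem B5_c0_t10 : CovD 1 gB5 [(131713204224, 5726797824), (824633720832, 274877906944), (54975791104, 54975791104)] :=
  covD_E kB5_eq (.n 1 (.n 1 (.n 0 (.n 1 (.l 0) (.l 0)) (.n 1 (.l 0) (.l 0))) (.n 2 (.l 0) (.l 0))) (.n 1 (.n 2 (.l 0) (.l 0)) (.n 2 (.l 0) (.l 0))))
    [(131713204224, 5726797824), (824633720832, 274877906944), (54975791104, 54975791104)] rfl (by decide +kernel)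
end

mutual
theorem D5_c0_t3 : CovD 1 gD5 [(103079215104, 11453595648), (618475290624, 68719476736), (863554764800, 863554764800)] :=
  covD_E kD5_eq (.n 2 (.n 2 (.n 0 (.l 0) (.l 0)) (.n 2 (.l 0) (.l 0))) (.n 2 (.n 2 (.l 0) (.n 0 (.l 0) (.l 0))) (.n 0 (.n 2 (.l 0) (.n 2 (.l 0) (.l 0))) (.n 2 (.l 0) (.l 0)))))
    [(103079215104, 11453595648), (618475290624, 68719476736), (863554764800, 863554764800)] rfl (by decide +kernel)
theorem D5_c0_t4 : CovD 1 gD5 [(103079215104, 11453595648), (755914244096, 68719476736), (863554764800, 863554764800)] :=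
  covD_E kD5_eq (.n 2 (.n 2 (.n 0 (.l 0) (.l 0)) (.n 2 (.l 0) (.l 0))) (.n 2 (.n 2 (.l 0) (.n 0 (.l 0) (.l 0))) (.n 0 (.n 2 (.l 0) (.l 0)) (.n 2 (.l 0) (.l 1)))))
    [(103079215104, 11453595648), (755914244096, 68719476736), (863554764800, 863554764800)] rfl (by decide +kernel)
end

mutual
theorem D5_c0_t6 : CovD 1 gD5 [(103079215104, 11453595648), (893353197568, 68719476736), (863554764800, 863554764800)] :=
  covD_E kD5_eq (.n 2 (.n 2 (.n 0 (.l 0) (.l 0)) (.n 2 (.l 0) (.l 0))) (.n 0 (.n 2 (.n 1 (.l 0) (.l 0)) (.n 2 (.l 0) (.l 0))) (.n 2 (.n 2 (.l 0) (.l 0)) (.n 0 (.l 1) (.l 1)))))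
    [(103079215104, 11453595648), (893353197568, 68719476736), (863554764800, 863554764800)] rfl (by decide +kernel)
theorem D5_c0_t7 : CovD 1 gD5 [(103079215104, 11453595648), (1030792151040, 68719476736), (863554764800, 863554764800)] :=
  covD_E kD5_eq (.n 0 (.n 2 (.n 2 (.l 0) (.n 1 (.l 0) (.l 0))) (.n 2 (.n 2 (.l 0) (.l 0)) (.n 2 (.l 0) (.l 1)))) (.n 2 (.n 2 (.n 1 (.l 0) (.l 0)) (.n 2 (.l 0) (.l 0))) (.n 2 (.n 2 (.l 0) (.l 1)) (.l 1))))
    [(103079215104, 11453595648), (1030792151040, 68719476736), (863554764800, 863554764800)] rfl (by decide +kernel)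
end

mutual
theorem D5_c0_t10 : CovD 1 gD5 [(125986406400, 11453595648), (618475290624, 68719476736), (863554764800, 863554764800)] :=
  covD_E kD5_eq (.n 2 (.n 2 (.n 2 (.l 0) (.l 0)) (.n 0 (.n 1 (.l 0) (.l 0)) (.n 2 (.l 0) (.l 0)))) (.n 0 (.n 2 (.n 2 (.l 0) (.l 0)) (.l 1)) (.n 2 (.l 1) (.l 1))))
    [(125986406400, 11453595648), (618475290624, 68719476736), (863554764800, 863554764800)] rfl (by decide +kernel)
theorem D5_c0_t11 : CovD 1 gD5 [(125986406400, 11453595648), (755914244096, 68719476736), (863554764800, 863554764800)] :=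
  covD_E kD5_eq (.n 2 (.n 2 (.n 2 (.l 0) (.l 0)) (.n 0 (.n 2 (.l 0) (.l 0)) (.l 1))) (.n 2 (.n 2 (.l 1) (.l 1)) (.l 1)))
    [(125986406400, 11453595648), (755914244096, 68719476736), (863554764800, 863554764800)] rfl (by decide +kernel)
end

mutual
theorem D5_c0_t12 : CovD 1 gD5 [(125986406400, 11453595648), (962072674304, 137438953472), (863554764800, 863554764800)] :=
  covD_E kD5_eq (.n 1 (.n 2 (.n 2 (.n 0 (.n 0 (.l 0) (.l 1)) (.l 1)) (.n 2 (.l 1) (.l 1))) (.n 2 (.n 0 (.l 1) (.l 1)) (.l 1))) (.n 2 (.n 2 (.n 2 (.l 1) (.l 1)) (.n 0 (.l 1) (.l 1))) (.n 2 (.l 1) (.l 1))))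
    [(125986406400, 11453595648), (962072674304, 137438953472), (863554764800, 863554764800)] rfl (by decide +kernel)
theorem E5_c0_t2 : CovD 1 gE5 [(103079215104, 11453595648), (824633720832, 274877906944), (431777382400, 431777382400)] :=
  covD_E kE5_eq (.n 1 (.n 2 (.l 1) (.n 0 (.l 1) (.l 1))) (.n 2 (.l 1) (.l 1)))
    [(103079215104, 11453595648), (824633720832, 274877906944), (431777382400, 431777382400)] rfl (by decide +kernel)
end

mutual
theorem E5_c0_t3 : CovD 1 gE5 [(103079215104, 11453595648), (824633720832, 274877906944), (1295332147200, 431777382400)] :=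
  covD_E kE5_eq (.n 1 (.n 1 (.n 2 (.l 1) (.n 0 (.n 0 (.n 2 (.l 1) (.l 1)) (.l 1)) (.l 1))) (.n 2 (.l 1) (.n 0 (.n 2 (.l 1) (.l 1)) (.l 1)))) (.n 0 (.n 2 (.l 1) (.n 1 (.l 1) (.l 1))) (.n 2 (.l 1) (.l 1))))
    [(103079215104, 11453595648), (824633720832, 274877906944), (1295332147200, 431777382400)] rfl (by decide +kernel)
theorem E5_c0_t4 : CovD 1 gE5 [(125986406400, 11453595648), (824633720832, 274877906944), (863554764800, 863554764800)] :=
  covD_E kE5_eq (.n 1 (.n 2 (.n 2 (.l 1) (.l 1)) (.n 2 (.l 1) (.n 0 (.l 1) (.l 1)))) (.n 2 (.n 2 (.l 1) (.l 1)) (.n 2 (.l 1) (.l 1))))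
    [(125986406400, 11453595648), (824633720832, 274877906944), (863554764800, 863554764800)] rfl (by decide +kernel)
end

theorem B5_c0_t2 : CovD 1 gB5 [(97352417280, 5726797824), (824633720832, 274877906944), (54975791104, 54975791104)] :=
  covD_split 1 (by decide +kernel) B5_c0_t3 B5_c0_t4

theorem B5_c0_t5 : CovD 1 gB5 [(108806012928, 5726797824), (824633720832, 274877906944), (54975791104, 54975791104)] :=
  covD_split 1 (by decide +kernel) B5_c0_t6 B5_c0_t7

theorem B5_c0_t1 : CovD 1 gB5 [(103079215104, 11453595648), (824633720832, 274877906944), (54975791104, 54975791104)] :=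
  covD_split 0 (by decide +kernel) B5_c0_t2 B5_c0_t5

theorem B5_c0_t8 : CovD 1 gB5 [(125986406400, 11453595648), (824633720832, 274877906944), (54975791104, 54975791104)] :=
  covD_split 0 (by decide +kernel) B5_c0_t9 B5_c0_t10

theorem B5_c0 : CovD 1 gB5 [(114532810752, 22907191296), (824633720832, 274877906944), (54975791104, 54975791104)] :=
  covD_split 0 (by decide +kernel) B5_c0_t1 B5_c0_t8

theorem D5_c0_t2 : CovD 1 gD5 [(103079215104, 11453595648), (687194767360, 137438953472), (863554764800, 863554764800)] :=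
  covD_split 1 (by decide +kernel) D5_c0_t3 D5_c0_t4

theorem D5_c0_t5 : CovD 1 gD5 [(103079215104, 11453595648), (962072674304, 137438953472), (863554764800, 863554764800)] :=
  covD_split 1 (by decide +kernel) D5_c0_t6 D5_c0_t7

theorem D5_c0_t1 : CovD 1 gD5 [(103079215104, 11453595648), (824633720832, 274877906944), (863554764800, 863554764800)] :=
  covD_split 1 (by decide +kernel) D5_c0_t2 D5_c0_t5

theorem D5_c0_t9 : CovD 1 gD5 [(125986406400, 11453595648), (687194767360, 137438953472), (863554764800, 863554764800)] :=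
  covD_split 1 (by decide +kernel) D5_c0_t10 D5_c0_t11

theorem D5_c0_t8 : CovD 1 gD5 [(125986406400, 11453595648), (824633720832, 274877906944), (863554764800, 863554764800)] :=
  covD_split 1 (by decide +kernel) D5_c0_t9 D5_c0_t12

theorem D5_c0 : CovD 1 gD5 [(114532810752, 22907191296), (824633720832, 274877906944), (863554764800, 863554764800)] :=
  covD_split 0 (by decide +kernel) D5_c0_t1 D5_c0_t8

theorem E5_c0_t1 : CovD 1 gE5 [(103079215104, 11453595648), (824633720832, 274877906944), (863554764800, 863554764800)] :=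
  covD_split 2 (by decide +kernel) E5_c0_t2 E5_c0_t3

theorem E5_c0 : CovD 1 gE5 [(114532810752, 22907191296), (824633720832, 274877906944), (863554764800, 863554764800)] :=
  covD_split 0 (by decide +kernel) E5_c0_t1 E5_c0_t4

end Pool.Agent.helper14.NR.E8c
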