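import Pool.Agent.helper63.NF.Cert

/-!
Generated: table E8c.
-/

namespace Pool.Agent.helper14.NR.E8c

open Pool.Agent.helper63.NF

def tab : TD where
  strip := false
  bm := none
  ec := 114621939712
  bc := 824633720832
  H := [[[-23495544512, 150450738176, -16387402240, -5445229952], [-763853441280, -42633858816, -303131564736], [790541244736, -902432589440], [18392981196416]], [[13810413952, -20868573056, 5504291776], [122597496000, -33862898176], [-125241327296]], [[-2944348288, 1182905472], [-13137243072]], [[252641088]], [[-10905472]]]
  pol := some ⟨-1048777326592, -5033701670912, 5872294035456, 31362867265536, [[-226366865792, -364799544192], [-190133994496, 0]], [[2071657740032, -2647607603712], [32813488007232, 0]]⟩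
  a := [[[137150529536, 256884408320, -288450084864, -3021667958784], [-1610874028032, -4254907301888]], [[67484844032, 43919605760, -9428992000, -677025546240], [-118115860480, -613869682688]], [[66588835840, 5892407296, 1899888640, -91199373312], [-17261264896, -33964097536]], [[65485602816, 349110272, 42074112, -18502057984], [-8779726848, -12176916480]], [[73604333568, 18795921408, -188454993920, -324503732224], [-48319823872, -303879421952]], [[74046111744, 59388002304, -167243022336, -1033823256576], [39857750016, -258814705664]]]
  j := [-3848290697216, 1649267441664, 3573412790272, 5222680231936, 6734508720128, 6734508720128]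
  c := [879662989312, 879662989312, 659814350848, 549755813888, 439697276928, 329907175424]
  M := [[[[1116985163776, 99091480576, 78749040640], [283847950336, 2195760873472], [13673490022400]], [[256127008768, 56813420544], [5403536850944]], [[448561283072, -108638961664], [-2674959319040]], [[-644314038272]], [[426567401472]], [[-197265784832]]], [[[1117922983936, 91130822656, 94231592960], [1060983996416]], [[72123023360, 4610916352], [590464352256]], [[-3262578688]], [[228327424]]], [[[1121999912960, 99702800384, 77115228160], [794103709696]], [[70738444288, 4059758592], [589843464192]], [[-2950234112]], [[184745984]]], [[[1120134037504, 88303206400, 80583524352], [702719393792]], [[70828163072, 5524815872], [593018093568]], [[-2805792768]], [[162529280]]], [[[1119893716992, 84460961792, 82300895232], [665014566912]], [[69925666816, 5729222656], [600332763136]], [[-2452291584]], [[131596288]]], [[[1118020108288, 86690365440, 80226353152], [626053545984]], [[71290454016, 4457889792], [612001644544]], [[-2811101184]], [[167641088]]]]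
  l0 := [[[3653382861440, 208706750912, -150830147456], [3744132317120, -3131792825472], [1981439978432]], [[449902119488, -921480048256, 79246766592], [-21861290631104, 2183277817664], [-19461563613376]], [[-794543144448, 1558905236864], [10231596380992]], [[1138816986944, -1341754140096], [-17782805617920]], [[-927458591936, 723517815616], [5563164928000]], [[154138166336]], [[223935300864]], [[-144678054080]]]
  q0 := [[345702123264, 471591718464, 36419572992, -114962791680], [3111131124480, 4950053774272, -1881021525888], [-6838599590784, 4881814165632], [-49214162339008]]
  t := [[[1854510530560, 764376252416, 375012720640, -1442671558656], [-112006332416, 6014675910656]], [[1005065928704, 515797942272, 574543822848, 1351211614208], [5176761450496, 7510970859520]], [[957114155008, 394940776448, 618635198464, 2717658775552], [5093423710208, 9074941886464]], [[880942776320, 302559395840, 542708269056, 2889478242304], [4393636659200, 8077318291456]], [[851965902848, 286812340224, -360022671360, 1571671441408], [3393680703488, 4500157562880]], [[954611204096, 870706118656, -785614372864, -6040661786624], [5354572742656, 8617259958272]]]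
  y := [15294378541056, 16382079008768, 14550275457024, 11431055458304, 8495445311488, 6260988575744]
  sc := [0, 0, 0, 0, 0, 0]
  L := [(0, 2), (0, 3), (1, 1), (1, 2), (2, 0), (2, 1), (3, 0)]
  Lt := [(0, 2), (0, 3), (1, 1)]
  far := 1
  x2 := 10775213113344
  B1 := 659706347520
  C2 := 1327712154624
  f1 := 769658138624
  f2 := 0
  f3 := 0
  is1 := 8796093022208
  s1 := 137438953472

end Pool.Agent.helper14.NR.E8c
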